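import Pool.Agent.Y828.CM.Over

/-!
# The core closing lemma
-/

set_option autoImplicit false
set_option linter.unusedSectionVars false

open scoped Manifold ContDiff Topology NNReal ComplexConjugate
open Filter Set Metric

universe u

namespace Pool.Agent.Y828.CM

open Pool.Agent.H718R2.G Pool.Agent.W564.SC Pool.Agent.TH290.CL

/-- `(m, P)` is a return pair for the neighbourhood `W`: the flow line point over `θ + P` of `F^m y` is
in `W` for some `y` in `W` over `θ`. -/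
def Ret {N : Type*} (F : N → N) (ψ : ℝ → N → N) (a : N → ℂ) (K : Set N) (g : ℝ → ℝ) (z : N)
    (θ : ℝ) (W : Set N) (m : ℕ) (P : ℤ) : Prop :=
  ∃ y ∈ W, y ∈ K ∧ a y = a z ∧ ψ (θ + P - g^[m] θ) (F^[m] y) ∈ W

variable {n : ℕ} {N : Type u} [TopologicalSpace N] [ChartedSpace (V n) N] [IsManifold (𝓡 n) ∞ N]

theorem core [T2Space N] [CompactSpace N] (r : ℕ∞) (hr : 1 ≤ r) {F : DiffM n N r}
    {ψ : ℝ → N → N} {a : N → ℂ} {K : Set N} {g : CircleDeg1Lift} (h : Over n N r F ψ a K g)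
    (z : N) {θ : ℝ} (hθ : a z = ex θ) {q : ℕ} {p : ℤ} (hq : 1 ≤ q)
    (H1 : ∀ x, x + p ≤ g^[q] x) (H2 : ∃ y, g^[q] y = y + p) (H3 : θ + p < g^[q] θ) (D : ℕ)
    (hA : ∀ W ∈ 𝓝 z, ∀ M : ℕ, ∃ (m : ℕ) (P : ℤ), M ≤ m ∧ 1 ≤ P * q - m * p ∧ P * q - m * p ≤ D ∧
      Ret F ψ a K g z θ W m P) :
    Closable n N r F z := by
  intro U hU hFU
  -- the minimal defect
  obtain ⟨Adm, hAdm⟩ : ∃ Adm : ℕ → Prop, ∀ e, Adm e ↔ ∃ W ∈ 𝓝 z, ∃ M : ℕ, ∀ (i : ℕ) (k : ℤ),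
      M ≤ i → 1 ≤ k * q - i * p → Ret F ψ a K g z θ W i k → (e : ℤ) ≤ k * q - i * p :=
    ⟨_, fun _ => Iff.rfl⟩
  obtain ⟨d, hd1, hd2⟩ : ∃ d, Adm d ∧ ¬ Adm (d + 1) := by
    by_contra hcon
    push Not at hcon
    have h0 : Adm 0 := (hAdm 0).2 ⟨univ, univ_mem, 0, fun i k _ h1 _ => by push_cast; omega⟩
    have hall : ∀ e, Adm e := fun e => Nat.rec h0 (fun e he => hcon e he) e
    obtain ⟨W, hW, M, hWM⟩ := (hAdm (D + 1)).1 (hall (D + 1))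
    obtain ⟨m, P, hm, h1, h2, h3⟩ := hA W hW M
    have := hWM m P hm h1 h3
    push_cast at this
    omega
  obtain ⟨W₀, hW₀, M₀, hM₀⟩ := (hAdm d).1 hd1
  rw [hAdm] at hd2
  push Not at hd2
  -- constants
  obtain ⟨c₀, hc₀, hgap⟩ := gap h.cont hq H1 H3
  obtain ⟨δ, hδ, hsmall⟩ := small h.cont h.mono hq H2 θ M₀
  obtain ⟨η, W₁, hη, hW₁, hWψ⟩ : ∃ (η : ℝ) (W' : Set N), 0 < η ∧ W' ∈ 𝓝 z ∧
      ∀ t, |t| < η → ∀ y ∈ W', ψ t y ∈ W₀ := by
    have h1 : Continuous (fun q : ℝ × N => ψ q.1 q.2) := h.flow.smooth.continuous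
    have h2 : W₀ ∈ 𝓝 ((fun q : ℝ × N => ψ q.1 q.2) (0, z)) := by
      show _ ∈ 𝓝 (ψ 0 z)
      rw [h.flow.zero]
      exact hW₀
    have h3 := h1.continuousAt.preimage_mem_nhds h2
    rw [nhds_prod_eq] at h3
    obtain ⟨s1, hs1, s2, hs2, hs12⟩ := Filter.mem_prod_iff.1 h3
    obtain ⟨η, hη, hη2⟩ := Metric.mem_nhds_iff.1 hs1
    refine ⟨η, s2, hη, hs2, fun t ht y hy => ?_⟩
    exact hs12 (show ((t, y) : ℝ × N) ∈ s1 ×ˢ s2 from ⟨hη2 (by
      rw [mem_ball, dist_zero_right, Real.norm_eq_abs]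
      exact ht), hy⟩)
  obtain ⟨c, hc, hcc₀, hcδ, hcη⟩ : ∃ c : ℝ, 0 < c ∧ c ≤ c₀ ∧ c ≤ δ ∧ c ≤ η :=
    ⟨min (min c₀ δ) η, lt_min (lt_min hc₀ hδ) hη, (min_le_left _ _).trans (min_le_left _ _),
      (min_le_left _ _).trans (min_le_right _ _), min_le_right _ _⟩
  -- the family
  have hb : ContMDiff (𝓡 n) 𝓘(ℝ, ℝ) ∞ (fun _ : N => (1 : ℝ)) := contMDiff_const
  obtain ⟨H, κ1, hκ1, hH0, hfam, hH⟩ := fam1 r h.flow (fun _ => 1) hb F
  obtain ⟨χ, hχ⟩ := Pool.Agent.W699.SC.gc n N z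
  obtain ⟨k₀, hk₀, κ2, hκ2, hCL⟩ := t_CL n N r hr ℝ H hfam χ z hχ U hU (by rw [hH0]; exact hFU)
  have hac : Continuous a := h.smooth.continuous
  -- the radius
  obtain ⟨ρ, hρ0, hρκ, hρa⟩ : ∃ ρ : ℝ, 0 < ρ ∧ ρ < κ2 ∧
      ∀ y ∈ χ.source, ‖χ y‖ < 3 * ρ → y ∈ W₀ ∩ W₁ ∧ ‖a y - a z‖ < 4 * c := by
    have hcn : ContinuousAt χ.symm (0 : V n) := by
      apply χ.continuousAt_symm
      exact hχ.ball (mem_closedBall_self (by norm_num))
    have hz0 : χ.symm (0 : V n) = z := by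
      rw [← hχ.zero]
      exact χ.left_inv hχ.src
    have h5 : {y | y ∈ W₀ ∩ W₁ ∧ ‖a y - a z‖ < 4 * c} ∈ 𝓝 z := by
      refine inter_mem (inter_mem hW₀ hW₁) ?_
      have h6 : ContinuousAt (fun y => ‖a y - a z‖) z := (hac.sub continuous_const).norm.continuousAt
      refine h6.eventually_lt_const ?_
      show ‖a z - a z‖ < 4 * c
      rw [sub_self, norm_zero]
      positivity
    have h6 := hcn.preimage_mem_nhds (by rw [hz0]; exact h5)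
    obtain ⟨ε, hε, hε2⟩ := Metric.mem_nhds_iff.1 h6
    refine ⟨min (ε / 3) (κ2 / 2), lt_min (by linarith) (by linarith),
      (min_le_right _ _).trans_lt (by linarith), ?_⟩
    intro y hy hy2
    have h7 : ‖χ y‖ < ε := by
      have : min (ε / 3) (κ2 / 2) ≤ ε / 3 := min_le_left _ _
      linarith
    have h8 := hε2 (show χ y ∈ ball (0 : V n) ε by rw [mem_ball, dist_zero_right]; exact h7)
    rw [mem_preimage, χ.left_inv hy] at h8
    exact h8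
  obtain ⟨ε, hε0, hε1, hε2, hε3⟩ : ∃ ε : ℝ, 0 < ε ∧ ε ≤ ρ ∧ ε ≤ κ2 ∧ 2 * ε ≤ κ2 * ρ ^ k₀ := by
    have h5 : 0 < κ2 * ρ ^ k₀ / 2 := by positivity
    refine ⟨min (min ρ κ2) (κ2 * ρ ^ k₀ / 2), lt_min (lt_min hρ0 hκ2) h5,
      (min_le_left _ _).trans (min_le_left _ _), (min_le_left _ _).trans (min_le_right _ _), ?_⟩
    have := min_le_right (min ρ κ2) (κ2 * ρ ^ k₀ / 2)
    linarith
  have hW : {y : N | y ∈ χ.source ∧ ‖χ y‖ < ε} ∈ 𝓝 z := by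
    have h5 : χ.source ∈ 𝓝 z := χ.open_source.mem_nhds hχ.src
    have h6 : ContinuousAt (fun y => ‖χ y‖) z := (χ.continuousAt hχ.src).norm
    have h7 : ∀ᶠ y in 𝓝 z, ‖χ y‖ < ε := by
      have h8 : ‖χ z‖ < ε := by rw [hχ.zero, norm_zero]; exact hε0
      exact h6.eventually_lt_const h8
    filter_upwards [h5, h7] with y hy1 hy2
    exact ⟨hy1, hy2⟩
  obtain ⟨η₂, hη₂, hη₂1, hη₂2, hη₂3⟩ : ∃ η₂ : ℝ, 0 < η₂ ∧ η₂ ≤ κ1 ∧ η₂ ≤ κ2 ∧ η₂ ≤ δ :=
    ⟨min (min κ1 κ2) δ, lt_min (lt_min hκ1 hκ2) hδ, (min_le_left _ _).trans (min_le_left _ _),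
      (min_le_left _ _).trans (min_le_right _ _), min_le_right _ _⟩
  obtain ⟨M₁, hM₁⟩ := reach h.cont h.mono hq H1 H2 θ η₂ hη₂ d
  obtain ⟨m, P, hmM, hP1, ⟨y, ⟨hyχ, hyε⟩, hyK, hay, hmyχ, hmyε⟩, hPd⟩ := hd2 _ hW (max M₁ 1)
  have hm1 : 1 ≤ m := (le_max_right _ _).trans hmM
  obtain ⟨t, ht0, htη, htm⟩ := hM₁ m P ((le_max_left _ _).trans hmM) hP1 (by push_cast at hPd; omega)
  have hHt : ∀ y, H t y = ψ t (F y) := by
    intro y
    have h1 := (hH t (by rw [abs_of_nonneg ht0]; exact htη.trans_le hη₂1)).1 y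
    rwa [mul_one] at h1
  have hys : a y = ex θ := by rw [hay, hθ]
  have horb : ∀ i, (H t)^[i] y = ψ ((sh g t)^[i] θ - g^[i] θ) (F^[i] y) := fun i =>
    h.itt hHt i hyK hys
  have hend : (H t)^[m] y = ψ (θ + P - g^[m] θ) (F^[m] y) := by rw [horb, htm]
  refine hCL t y ρ m (by rw [Real.norm_eq_abs, abs_of_nonneg ht0]; exact htη.trans_le hη₂2) hyχ
    (hyε.trans_le hε2) hρ0 hρκ hm1 ?_ ?_ ?_
  · rw [hend]
    exact hmyχ
  · rw [hend]
    calc ‖χ (ψ (θ + P - g^[m] θ) (F^[m] y)) - χ y‖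
        ≤ ‖χ (ψ (θ + P - g^[m] θ) (F^[m] y))‖ + ‖χ y‖ := norm_sub_le _ _
      _ < ε + ε := add_lt_add hmyε hyε
      _ = 2 * ε := by ring
      _ ≤ κ2 * ρ ^ k₀ := hε3
  · intro i hi0 him hiχ
    by_contra hcon
    push Not at hcon
    have h5 : ‖χ ((H t)^[i] y)‖ < 3 * ρ := by
      have h6 : χ ((H t)^[i] y) = (χ ((H t)^[i] y) - χ y) + χ y := by
        rw [sub_add_cancel]
      rw [h6]
      have h7 := norm_add_le (χ ((H t)^[i] y) - χ y) (χ y)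
      linarith
    obtain ⟨⟨h60, h61⟩, h62⟩ := hρa _ hiχ h5
    obtain ⟨⟨h70, h71⟩, h72⟩ := hρa y hyχ (by linarith)
    obtain ⟨i1, i2, i3⟩ := h.it i y hyK θ hys
    have h8 : a ((H t)^[i] y) = ex ((sh g t)^[i] θ) := by
      rw [horb, h.eigψ _ i1, i2, ← ex_add, sub_add_cancel]
    have h9 : ‖a ((H t)^[i] y) - a z‖ = ‖ex ((sh g t)^[i] θ - θ) - 1‖ := by
      have e : a ((H t)^[i] y) - a z = (ex ((sh g t)^[i] θ - θ) - 1) * ex θ := by
        rw [h8, hθ, sub_mul, one_mul, ← ex_add, sub_add_cancel]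
      rw [e, norm_mul, norm_ex, mul_one]
    rw [h9] at h62
    obtain ⟨k, hk⟩ : ∃ k : ℤ, |(sh g t)^[i] θ - θ - k| < c := by
      by_contra hcon2
      push Not at hcon2
      have := le_norm_ex_sub_one hcon2
      linarith
    have e1 : (sh g t)^[i] θ - θ - k = (sh g t)^[i] θ - (θ + k) := by ring
    rw [e1] at hk
    have hkey : i * p < k * q → P * q - m * p ≤ k * q - i * p := by
      intro hlt
      rcases Nat.lt_or_ge i M₀ with hi | hi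
      · exfalso
        have h10 := hsmall t (htη.le.trans hη₂3) i k hi hlt
        have h11 : δ ≤ |(sh g t)^[i] θ - (θ + k)| := by
          rw [abs_sub_comm]
          exact le_trans (by linarith) (le_abs_self _)
        linarith
      · have h10 : Ret F ψ a K g z θ W₀ i k := by
          refine ⟨y, h70, hyK, hay, ?_⟩
          have h11 := hWψ (θ + k - (sh g t)^[i] θ) (by
            rw [abs_sub_comm]
            exact hk.trans_le hcη) _ h61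
          rw [horb, ← h.flow.add] at h11
          have e2 : θ + k - (sh g t)^[i] θ + ((sh g t)^[i] θ - g^[i] θ) = θ + k - g^[i] θ := by ring
          rwa [e2] at h11
        have h11 := hM₀ i k hi (by linarith) h10
        push_cast at hPd
        omega
    have h10 := track h.mono hgap ht0 htm hi0 him k hkey
    linarith

end Pool.Agent.Y828.CM
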