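import Pool.Agent.Y828.CM.Lift

/-!
# Drifting orbits of a circle map which touches a rational rotation number
-/

set_option autoImplicit false

open Filter Set Topology

namespace Pool.Agent.Y828.CM

section

variable {g : CircleDeg1Lift} {q : ℕ} {p : ℤ}

theorem reach (hc : Continuous g) (hg : StrictMono g) (hq : 1 ≤ q) (H1 : ∀ x, x + p ≤ g^[q] x)
    (H2 : ∃ y, g^[q] y = y + p) (θ : ℝ) (η : ℝ) (hη : 0 < η) (D : ℕ) :
    ∃ M : ℕ, ∀ (m : ℕ) (P : ℤ), M ≤ m → 1 ≤ P * q - m * p → P * q - m * p ≤ D →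
      ∃ t : ℝ, 0 ≤ t ∧ t < η ∧ (sh g t)^[m] θ = θ + P := by
  obtain ⟨s, hs⟩ : ∃ s : ℝ, s = η / 2 := ⟨_, rfl⟩
  have hs0 : 0 < s := by rw [hs]; linarith
  obtain ⟨J, hJ⟩ := exists_nat_gt ((1 + D) / s)
  have hJ' : 1 + (D : ℝ) < J * s := (div_lt_iff₀ hs0).1 hJ
  refine ⟨q * J, fun m P hm hP1 hPD => ?_⟩
  have hq0 : (0 : ℝ) < q := by exact_mod_cast hq
  have hstep : ∀ x, x + (p + s) ≤ (sh g s)^[q] x := by
    intro x
    have h1 := sh_it_lt g hs0 q hq x
    rw [sh_zero] at h1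
    have := H1 x
    linarith
  have hsteps : ∀ (j : ℕ) (x : ℝ), x + j * (p + s) ≤ (sh g s)^[q * j] x := by
    intro j
    induction j with
    | zero => intro x; simp
    | succ j ih =>
      intro x
      have e : q * (j + 1) = q + q * j := by ring
      rw [e, Function.iterate_add_apply]
      have h1 := ih x
      have h2 := hstep ((sh g s)^[q * j] x)
      push_cast
      linarith
  have hlow : θ + P ≤ (sh g s)^[m] θ := by
    obtain ⟨j, hj⟩ : ∃ j, j = m / q := ⟨_, rfl⟩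
    obtain ⟨r, hr⟩ : ∃ r, r = m % q := ⟨_, rfl⟩
    have hm' : m = r + q * j := by
      rw [hj, hr]
      exact (Nat.mod_add_div m q).symm
    have hJj : J ≤ j := by
      rw [hj]
      exact (Nat.le_div_iff_mul_le (by omega)).2 (by rw [mul_comm]; exact hm)
    have h1 := hsteps j θ
    have h2 : g^[r] ((sh g s)^[q * j] θ) ≤ (sh g s)^[r] ((sh g s)^[q * j] θ) :=
      sh_it_ge g hs0.le r _
    have h3 := le_it hq H1 ((sh g s)^[q * j] θ) r (r * p / q) (Int.ediv_mul_le _ (by omega))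
    have h4 : ((r * p : ℤ) : ℝ) / q - 1 ≤ ((r * p / q : ℤ) : ℝ) := by
      have h5 : (r * p : ℤ) < (r * p / q + 1) * q := Int.lt_ediv_add_one_mul_self _ (by omega)
      have h6 : ((r * p : ℤ) : ℝ) < (((r * p / q + 1) * q : ℤ) : ℝ) := by exact_mod_cast h5
      have h7 : ((r * p : ℤ) : ℝ) / q < ((r * p / q : ℤ) : ℝ) + 1 := by
        rw [div_lt_iff₀ hq0]
        push_cast at h6 ⊢
        linarith
      linarith
    have hme : (sh g s)^[m] θ = (sh g s)^[r] ((sh g s)^[q * j] θ) := by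
      rw [hm', Function.iterate_add_apply]
    rw [hme]
    have h5 : (P : ℝ) * q ≤ m * p + D := by
      have : P * q ≤ m * p + D := by linarith
      exact_mod_cast this
    have h6 : (P : ℝ) ≤ (m * p + D) / q := by
      rw [le_div_iff₀ hq0]
      exact h5
    have h7 : ((m : ℝ) * p + D) / q = j * p + ((r * p : ℤ) : ℝ) / q + D / q := by
      rw [hm']
      push_cast
      field_simp
      ring
    have h8 : (D : ℝ) / q ≤ D := div_le_self (Nat.cast_nonneg _) (by exact_mod_cast hq)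
    have h9 : (J : ℝ) * s ≤ j * s := mul_le_mul_of_nonneg_right (by exact_mod_cast hJj) hs0.le
    have h10 : (j : ℝ) * (p + s) = j * p + j * s := by ring
    linarith
  have hup : g^[m] θ < θ + P := it_lt hg hq H2 θ m P (by linarith)
  have hcont : Continuous (fun t : ℝ => (sh g t)^[m] θ) :=
    (sh_cont2 hc m).comp (continuous_id.prodMk continuous_const)
  have hmem : θ + (P : ℝ) ∈ Icc ((sh g 0)^[m] θ) ((sh g s)^[m] θ) := by
    rw [sh_zero]
    exact ⟨hup.le, hlow⟩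
  obtain ⟨t, ht, ht2⟩ := intermediate_value_Icc hs0.le hcont.continuousOn hmem
  exact ⟨t, ht.1, lt_of_le_of_lt ht.2 (by rw [hs]; linarith), ht2⟩

theorem small (hc : Continuous g) (hg : StrictMono g) (hq : 1 ≤ q)
    (H2 : ∃ y, g^[q] y = y + p) (θ : ℝ) (M : ℕ) :
    ∃ δ : ℝ, 0 < δ ∧ ∀ t, t ≤ δ → ∀ (i : ℕ) (k : ℤ), i < M → i * p < k * q →
      (sh g t)^[i] θ ≤ θ + k - δ := by
  have key : ∀ᶠ δ in 𝓝[>] (0 : ℝ), ∀ i ∈ Finset.range M,
      (sh g δ)^[i] θ ≤ θ + ((i * p / q + 1 : ℤ) : ℝ) - δ := by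
    rw [Finset.eventually_all]
    intro i _
    have hlt : g^[i] θ < θ + ((i * p / q + 1 : ℤ) : ℝ) :=
      it_lt hg hq H2 θ i _ (Int.lt_ediv_add_one_mul_self _ (by omega))
    apply eventually_nhdsWithin_of_eventually_nhds
    have h1 : Tendsto (fun δ : ℝ => (sh g δ)^[i] θ + δ) (𝓝 0) (𝓝 ((sh g 0)^[i] θ + 0)) :=
      (((sh_cont2 hc i).comp (continuous_id.prodMk continuous_const)).add continuous_id).tendsto _
    rw [sh_zero, add_zero] at h1
    filter_upwards [h1.eventually (gt_mem_nhds hlt)] with δ hδ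
    linarith
  obtain ⟨δ, hδ1, hδ0⟩ := (key.and self_mem_nhdsWithin).exists
  refine ⟨δ, hδ0, fun t ht i k hi hk => ?_⟩
  have h1 := hδ1 i (Finset.mem_range.2 hi)
  have h2 : i * p / q < k := Int.ediv_lt_of_lt_mul (by omega) hk
  have h3 : ((i * p / q + 1 : ℤ) : ℝ) ≤ k := by exact_mod_cast h2
  have h4 := sh_it_mono g ht i θ
  linarith

theorem track (hg : StrictMono g) {θ c : ℝ}
    (hgap : ∀ (j : ℕ) (k : ℤ), 1 ≤ j → k * q ≤ j * p → θ + k + c ≤ g^[j] θ ∧ θ + k ≤ g^[j] (θ - c))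
    {t : ℝ} (ht : 0 ≤ t) {m : ℕ} {P : ℤ} (hm : (sh g t)^[m] θ = θ + P) {i : ℕ} (hi : 0 < i)
    (him : i < m) (k : ℤ) (hk : i * p < k * q → P * q - m * p ≤ k * q - i * p) :
    c ≤ |(sh g t)^[i] θ - (θ + k)| := by
  rcases le_or_gt (k * q) (i * p) with h | h
  · have h1 := (hgap i k hi h).1
    have h2 := sh_it_ge g ht i θ
    exact le_trans (by linarith) (le_abs_self _)
  · have h0 := hk h
    obtain ⟨j, rfl⟩ := Nat.exists_eq_add_of_lt him
    have hj : (P - k) * q ≤ ((j + 1 : ℕ) : ℤ) * p := by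
      push_cast at h0 ⊢
      linarith
    have h1 := (hgap (j + 1) (P - k) (by omega) hj).2
    have h2 : (sh g t)^[i] θ ≤ θ + k - c := by
      by_contra hcon
      push Not at hcon
      have h3 : (sh g t)^[j + 1] (θ + k - c) < (sh g t)^[j + 1] ((sh g t)^[i] θ) :=
        it_strictMono (sh_strictMono hg t) _ hcon
      have e : i + j + 1 = (j + 1) + i := by ring
      rw [← Function.iterate_add_apply, ← e, hm] at h3
      have h4 := sh_it_ge g ht (j + 1) (θ + k - c)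
      have e2 : θ + k - c = (θ - c) + k := by ring
      rw [e2, it_add_int] at h4
      rw [e2] at h3
      push_cast at h1
      linarith
    rw [abs_sub_comm]
    exact le_trans (by linarith) (le_abs_self _)

end

section

variable {g : CircleDeg1Lift} {q : ℕ} {p : ℤ}

theorem it_fract (g : CircleDeg1Lift) (q : ℕ) (p : ℤ) (x : ℝ)
    (h : g^[q] (Int.fract x) = Int.fract x + p) : g^[q] x = x + p := by
  have e : x = Int.fract x + (⌊x⌋ : ℤ) := (Int.fract_add_floor x).symm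
  rw [e, it_add_int, h]
  ring

/-- a touching point in the orbit of `θ` makes `θ` a touching point -/
theorem touch_orbit (hg : StrictMono g) {θ y : ℝ} (hy : g^[q] y = y + p) {i : ℕ} {k : ℤ}
    (h : y = g^[i] θ + k) : g^[q] θ = θ + p := by
  have h1 : g^[i] (g^[q] θ) = g^[i] (θ + p) := by
    rw [h, it_add_int] at hy
    rw [it_add_int, ← Function.iterate_add_apply, add_comm i q, Function.iterate_add_apply]
    linarith
  exact (hg.iterate i).injective h1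

theorem touch (hc : Continuous g) (hg : StrictMono g) (hq : 1 ≤ q) {t₁ t₂ : ℝ}
    (A1 : ∀ x, (sh g t₁)^[q] x < x + p) (A2 : ∀ x, x + p < (sh g t₂)^[q] x) (θ : ℝ) :
    ∃ t ∈ Icc t₁ t₂, ∃ y, (sh g t)^[q] y = y + p ∧ (∀ (i : ℕ) (k : ℤ), y ≠ (sh g t)^[i] θ + k) ∧
      ((∀ x, x + p ≤ (sh g t)^[q] x) ∨ ∀ x, (sh g t)^[q] x ≤ x + p) := by
  have ht : t₁ ≤ t₂ := by
    by_contra hcon
    push Not at hcon
    have h1 := A1 0
    have h2 := A2 0
    have h3 := sh_it_mono g hcon.le q 0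
    linarith
  have ex1 : ∀ x : ℝ, ∃ t ∈ Icc t₁ t₂, (sh g t)^[q] x = x + p := by
    intro x
    have hcont : Continuous (fun t : ℝ => (sh g t)^[q] x) :=
      (sh_cont2 hc q).comp (continuous_id.prodMk continuous_const)
    obtain ⟨t, h1, h2⟩ := intermediate_value_Icc ht hcont.continuousOn
      (show x + (p : ℝ) ∈ Icc ((sh g t₁)^[q] x) ((sh g t₂)^[q] x) from ⟨(A1 x).le, (A2 x).le⟩)
    exact ⟨t, h1, h2⟩
  obtain ⟨A, hA⟩ : ∃ A : Set (ℝ × ℝ), A = {z | z ∈ Icc t₁ t₂ ×ˢ Icc (0 : ℝ) 1 ∧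
      (sh g z.1)^[q] z.2 = z.2 + p} := ⟨_, rfl⟩
  have hAc : IsCompact A := by
    have h1 : IsCompact (Icc t₁ t₂ ×ˢ Icc (0 : ℝ) 1) := isCompact_Icc.prod isCompact_Icc
    have h2 : IsClosed {z : ℝ × ℝ | (sh g z.1)^[q] z.2 = z.2 + p} :=
      isClosed_eq (sh_cont2 hc q) (continuous_snd.add continuous_const)
    rw [hA]
    exact h1.inter_right h2
  have hAm : ∀ x : ℝ, ∃ t ∈ Icc t₁ t₂, (sh g t)^[q] x = x + p ∧ (t, Int.fract x) ∈ A := by
    intro x
    obtain ⟨t, h1, h2⟩ := ex1 (Int.fract x)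
    refine ⟨t, h1, it_fract _ _ _ _ h2, ?_⟩
    rw [hA]
    exact ⟨⟨h1, Int.fract_nonneg x, (Int.fract_lt_one x).le⟩, h2⟩
  have hAne : A.Nonempty := by
    obtain ⟨t, _, _, h⟩ := hAm 0
    exact ⟨_, h⟩
  obtain ⟨⟨tp, yp⟩, hp1, hp2⟩ := hAc.exists_isMaxOn hAne continuous_fst.continuousOn
  obtain ⟨⟨tm, ym⟩, hm1, hm2⟩ := hAc.exists_isMinOn hAne continuous_fst.continuousOn
  have hp3 : tp ∈ Icc t₁ t₂ ∧ (sh g tp)^[q] yp = yp + p := by
    rw [hA] at hp1
    exact ⟨hp1.1.1, hp1.2⟩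
  have hm3 : tm ∈ Icc t₁ t₂ ∧ (sh g tm)^[q] ym = ym + p := by
    rw [hA] at hm1
    exact ⟨hm1.1.1, hm1.2⟩
  have hp4 : ∀ x, x + p ≤ (sh g tp)^[q] x := by
    intro x
    obtain ⟨t, _, h2, h3⟩ := hAm x
    have h4 : t ≤ tp := hp2 h3
    rw [← h2]
    exact sh_it_mono g h4 q x
  have hm4 : ∀ x, (sh g tm)^[q] x ≤ x + p := by
    intro x
    obtain ⟨t, _, h2, h3⟩ := hAm x
    have h4 : tm ≤ t := hm2 h3
    rw [← h2]
    exact sh_it_mono g h4 q x
  by_cases c1 : ∀ (i : ℕ) (k : ℤ), yp ≠ (sh g tp)^[i] θ + k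
  · exact ⟨tp, hp3.1, yp, hp3.2, c1, Or.inl hp4⟩
  by_cases c2 : ∀ (i : ℕ) (k : ℤ), ym ≠ (sh g tm)^[i] θ + k
  · exact ⟨tm, hm3.1, ym, hm3.2, c2, Or.inr hm4⟩
  push Not at c1 c2
  obtain ⟨i, k, hik⟩ := c1
  obtain ⟨i', k', hik'⟩ := c2
  have d1 := touch_orbit (sh_strictMono hg tp) hp3.2 hik
  have d2 := touch_orbit (sh_strictMono hg tm) hm3.2 hik'
  have hle : tm ≤ tp := hm2 hp1
  have heq : tm = tp := by
    rcases hle.lt_or_eq with h | h
    · have := sh_it_lt g h q hq θ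
      linarith
    · exact h
  rw [heq] at hm4
  have hcount : (range (fun z : ℕ × ℤ => (sh g tp)^[z.1] θ + z.2)).Countable := countable_range _
  obtain ⟨y, hy⟩ := (hcount.dense_compl ℝ).nonempty
  refine ⟨tp, hp3.1, y, le_antisymm (hm4 y) (hp4 y), fun i k h => hy ⟨(i, k), h.symm⟩, Or.inl hp4⟩

end

end Pool.Agent.Y828.CM
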