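import Mathlib

/-!
# Lifts of circle homeomorphisms: order estimates for drifting orbits
-/

set_option autoImplicit false

open Filter Set Topology

namespace Pool.Agent.Y828.CM

/-- The lift `x ↦ g x + t`. -/
def sh (g : CircleDeg1Lift) (t : ℝ) : CircleDeg1Lift where
  toFun x := g x + t
  monotone' x y h := by have := g.mono h; simpa using this
  map_add_one' x := by show g (x + 1) + t = g x + t + 1; rw [g.map_add_one]; ring

@[simp] theorem sh_apply (g : CircleDeg1Lift) (t x : ℝ) : sh g t x = g x + t := rfl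

/-- iterates of a lift, as a lift -/
theorem pow_apply (g : CircleDeg1Lift) (n : ℕ) (x : ℝ) : (g ^ n) x = g^[n] x := by
  rw [CircleDeg1Lift.coe_pow]

theorem it_add_int (g : CircleDeg1Lift) (n : ℕ) (x : ℝ) (k : ℤ) :
    g^[n] (x + k) = g^[n] x + k := by
  rw [← pow_apply, ← pow_apply, CircleDeg1Lift.map_add_int]

theorem it_mono (g : CircleDeg1Lift) (n : ℕ) {x y : ℝ} (h : x ≤ y) : g^[n] x ≤ g^[n] y :=
  g.monotone.iterate n h

theorem it_strictMono {g : CircleDeg1Lift} (hg : StrictMono g) (n : ℕ) {x y : ℝ} (h : x < y) :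
    g^[n] x < g^[n] y := hg.iterate n h

/-- comparison of iterates: `j` times the `q`-th iterate against `q` times the `j`-th -/
theorem it_mul (g : CircleDeg1Lift) (a b : ℕ) (x : ℝ) :
    ((g ^ a : CircleDeg1Lift))^[b] x = g^[a * b] x := by
  rw [CircleDeg1Lift.coe_pow, ← Function.iterate_mul]

section

variable {g : CircleDeg1Lift} {q : ℕ} {p : ℤ}

/-- L1 -/
theorem le_it (hq : 1 ≤ q) (H1 : ∀ x, x + p ≤ g^[q] x) (x : ℝ) (j : ℕ) (k : ℤ)
    (hk : k * q ≤ j * p) : x + k ≤ g^[j] x := by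
  have h1 : x + (j : ℝ) * p ≤ (g ^ q : CircleDeg1Lift)^[j] x :=
    (g ^ q).le_iterate_of_add_int_le_map (by rw [pow_apply]; exact H1 x) j
  rw [it_mul, mul_comm q j, ← it_mul] at h1
  have h2 : x + (q : ℝ) * k ≤ (g ^ j : CircleDeg1Lift)^[q] x := by
    refine le_trans ?_ h1
    have : ((k * q : ℤ) : ℝ) ≤ ((j * p : ℤ) : ℝ) := by exact_mod_cast hk
    push_cast at this
    linarith
  have h3 := (CircleDeg1Lift.le_iterate_pos_iff (g ^ j) (by omega : 0 < q)).1 h2
  rwa [pow_apply] at h3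

/-- strict version at a point which is moved up -/
theorem lt_it (hq : 1 ≤ q) {θ : ℝ} (H3 : θ + p < g^[q] θ) (j : ℕ) (hj : 1 ≤ j) (k : ℤ)
    (hk : k * q ≤ j * p) : θ + k < g^[j] θ := by
  have h1 : θ + (j : ℝ) * p < (g ^ q : CircleDeg1Lift)^[j] θ :=
    (CircleDeg1Lift.lt_iterate_pos_iff (g ^ q) (by omega : 0 < j)).2 (by rw [pow_apply]; exact H3)
  rw [it_mul, mul_comm q j, ← it_mul] at h1
  have h2 : θ + (q : ℝ) * k < (g ^ j : CircleDeg1Lift)^[q] θ := by
    refine lt_of_le_of_lt ?_ h1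
    have : ((k * q : ℤ) : ℝ) ≤ ((j * p : ℤ) : ℝ) := by exact_mod_cast hk
    push_cast at this
    linarith
  have h3 := (CircleDeg1Lift.lt_iterate_pos_iff (g ^ j) (by omega : 0 < q)).1 h2
  rwa [pow_apply] at h3

/-- L3 -/
theorem it_lt (hg : StrictMono g) (hq : 1 ≤ q) (H2 : ∃ y, g^[q] y = y + p) (x : ℝ) (j : ℕ) (k : ℤ)
    (hk : j * p < k * q) : g^[j] x < x + k := by
  obtain ⟨y, hy⟩ := H2
  obtain ⟨l, hl⟩ : ∃ l : ℤ, l = ⌊x - y⌋ := ⟨_, rfl⟩
  have hl1 : (l : ℝ) ≤ x - y := by rw [hl]; exact Int.floor_le _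
  have hl2 : x - y < l + 1 := by rw [hl]; exact Int.lt_floor_add_one _
  have h0 : (g ^ q : CircleDeg1Lift) (y + (l + 1 : ℤ)) = y + (l + 1 : ℤ) + p := by
    rw [CircleDeg1Lift.map_add_int, pow_apply, hy]
    ring
  have h1 : (g ^ q : CircleDeg1Lift)^[j] (y + (l + 1 : ℤ)) = y + (l + 1 : ℤ) + (j : ℝ) * p :=
    (g ^ q).iterate_eq_of_map_eq_add_int h0 j
  have h2 : (g ^ q : CircleDeg1Lift)^[j] x < y + (l + 1 : ℤ) + (j : ℝ) * p := by
    rw [← h1, it_mul, it_mul]
    apply it_strictMono hg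
    push_cast
    linarith
  rw [it_mul, mul_comm q j, ← it_mul] at h2
  have h3 : (g ^ j : CircleDeg1Lift)^[q] x < x + (q : ℝ) * k := by
    refine lt_of_lt_of_le h2 ?_
    have : ((j * p + 1 : ℤ) : ℝ) ≤ ((k * q : ℤ) : ℝ) := by exact_mod_cast hk
    push_cast at this ⊢
    linarith
  have h4 := (CircleDeg1Lift.iterate_pos_lt_iff (g ^ j) (by omega : 0 < q)).1 h3
  rwa [pow_apply] at h4

theorem cont_it (hc : Continuous g) (j : ℕ) : Continuous (fun x => g^[j] x) := hc.iterate j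

/-- L2 -/
theorem gap (hc : Continuous g) (hq : 1 ≤ q) (H1 : ∀ x, x + p ≤ g^[q] x) {θ : ℝ}
    (H3 : θ + p < g^[q] θ) :
    ∃ c : ℝ, 0 < c ∧ ∀ (j : ℕ) (k : ℤ), 1 ≤ j → k * q ≤ j * p →
      θ + k + c ≤ g^[j] θ ∧ θ + k ≤ g^[j] (θ - c) := by
  have key : ∀ᶠ c in 𝓝[>] (0 : ℝ), ∀ j ∈ Finset.Icc 1 q,
      θ + ((j * p / q : ℤ) : ℝ) + c ≤ g^[j] θ ∧ θ + ((j * p / q : ℤ) : ℝ) ≤ g^[j] (θ - c) := by
    rw [Finset.eventually_all]
    intro j hj
    rw [Finset.mem_Icc] at hj
    have hlt : θ + ((j * p / q : ℤ) : ℝ) < g^[j] θ :=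
      lt_it hq H3 j hj.1 _ (Int.ediv_mul_le _ (by omega))
    have e1 : ∀ᶠ c in 𝓝[>] (0 : ℝ), θ + ((j * p / q : ℤ) : ℝ) + c ≤ g^[j] θ := by
      apply eventually_nhdsWithin_of_eventually_nhds
      have h1 : Tendsto (fun c : ℝ => θ + ((j * p / q : ℤ) : ℝ) + c) (𝓝 0)
          (𝓝 (θ + ((j * p / q : ℤ) : ℝ) + 0)) := (continuous_const.add continuous_id).tendsto _
      rw [add_zero] at h1
      exact (h1.eventually (gt_mem_nhds hlt)).mono fun c hc => hc.le
    have e2 : ∀ᶠ c in 𝓝[>] (0 : ℝ), θ + ((j * p / q : ℤ) : ℝ) ≤ g^[j] (θ - c) := by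
      apply eventually_nhdsWithin_of_eventually_nhds
      have h1 : Tendsto (fun c : ℝ => g^[j] (θ - c)) (𝓝 0) (𝓝 (g^[j] (θ - 0))) :=
        ((cont_it hc j).comp (continuous_const.sub continuous_id)).tendsto _
      rw [sub_zero] at h1
      exact (h1.eventually (lt_mem_nhds hlt)).mono fun c hc => hc.le
    exact e1.and e2
  obtain ⟨c, hc1, hc0⟩ := (key.and self_mem_nhdsWithin).exists
  refine ⟨c, hc0, fun j k hj hk => ?_⟩
  rcases le_or_gt q j with h | h
  · have h1 := hc1 q (Finset.mem_Icc.2 ⟨hq, le_rfl⟩)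
    have e : ((q : ℤ) * p / q : ℤ) = p := Int.mul_ediv_cancel_left _ (by omega)
    rw [e] at h1
    obtain ⟨i, rfl⟩ := Nat.exists_eq_add_of_le h
    have hk' : (k - p) * q ≤ i * p := by
      push_cast at hk
      nlinarith
    have ea : ∀ x, g^[q + i] x = g^[i] (g^[q] x) := fun x => by
      rw [add_comm, Function.iterate_add_apply]
    constructor
    · have h2 : g^[i] (θ + c + p) ≤ g^[i] (g^[q] θ) := it_mono g i (by linarith [h1.1])
      have h3 := le_it hq H1 (θ + c) i (k - p) hk'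
      rw [it_add_int] at h2
      rw [ea]
      push_cast at h3
      linarith
    · have h2 : g^[i] (θ + p) ≤ g^[i] (g^[q] (θ - c)) := it_mono g i (by linarith [h1.2])
      have h3 := le_it hq H1 θ i (k - p) hk'
      rw [it_add_int] at h2
      rw [ea]
      push_cast at h3
      linarith
  · have h1 := hc1 j (Finset.mem_Icc.2 ⟨hj, h.le⟩)
    have h2 : k ≤ j * p / q := Int.le_ediv_of_mul_le (by omega) hk
    have h3 : (k : ℝ) ≤ ((j * p / q : ℤ) : ℝ) := by exact_mod_cast h2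
    constructor
    · linarith [h1.1]
    · linarith [h1.2]

end

section

variable {g : CircleDeg1Lift}

theorem sh_it_ge (g : CircleDeg1Lift) {t : ℝ} (ht : 0 ≤ t) (j : ℕ) (x : ℝ) :
    g^[j] x ≤ (sh g t)^[j] x := by
  have h1 : g ≤ sh g t := fun x => by show g x ≤ g x + t; linarith
  exact CircleDeg1Lift.iterate_mono h1 j x

theorem sh_it_mono (g : CircleDeg1Lift) {s t : ℝ} (h : s ≤ t) (j : ℕ) (x : ℝ) :
    (sh g s)^[j] x ≤ (sh g t)^[j] x := by
  have h1 : sh g s ≤ sh g t := fun x => by show g x + s ≤ g x + t; linarith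
  exact CircleDeg1Lift.iterate_mono h1 j x

theorem sh_it_lt (g : CircleDeg1Lift) {s t : ℝ} (h : s < t) (j : ℕ) (hj : 1 ≤ j) (x : ℝ) :
    (sh g s)^[j] x + (t - s) ≤ (sh g t)^[j] x := by
  obtain ⟨i, rfl⟩ := Nat.exists_eq_add_of_le' hj
  rw [Function.iterate_succ_apply', Function.iterate_succ_apply']
  have h1 := g.mono (sh_it_mono g h.le i x)
  simp only [sh_apply]
  linarith

theorem sh_cont (hc : Continuous g) (t : ℝ) : Continuous (sh g t) := hc.add continuous_const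

theorem sh_strictMono (hg : StrictMono g) (t : ℝ) : StrictMono (sh g t) := fun x y h => by
  have := hg h
  simp only [sh_apply]
  linarith

theorem sh_zero (g : CircleDeg1Lift) : sh g 0 = g := by
  ext x
  simp

theorem sh_sh (g : CircleDeg1Lift) (s t : ℝ) : sh (sh g s) t = sh g (s + t) := by
  ext x
  simp only [sh_apply]
  ring

/-- joint continuity of the iterates -/
theorem sh_cont2 (hc : Continuous g) (j : ℕ) :
    Continuous (fun z : ℝ × ℝ => (sh g z.1)^[j] z.2) := by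
  induction j with
  | zero => exact continuous_snd
  | succ j ih =>
    have e : (fun z : ℝ × ℝ => (sh g z.1)^[j + 1] z.2) =
        fun z => g ((sh g z.1)^[j] z.2) + z.1 := by
      funext z
      rw [Function.iterate_succ_apply', sh_apply]
    rw [e]
    exact (hc.comp ih).add continuous_fst

end

end Pool.Agent.Y828.CM
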