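import Pool.Agent.Y828.CM.Core

/-!
# The closing lemma over circle maps which are not mode-locked
-/

set_option autoImplicit false
set_option linter.unusedSectionVars false

open scoped Manifold ContDiff Topology NNReal ComplexConjugate
open Filter Set Metric

universe u

namespace Pool.Agent.Y828.CM

open Pool.Agent.H718R2.G Pool.Agent.W564.SC Pool.Agent.TH290.CL

/-- The `ψ`-orbit of `z` is nonwandering for `F` on `K`. -/
def OrbNW {N : Type*} [TopologicalSpace N] (F : N → N) (ψ : ℝ → N → N) (K : Set N) (z : N) : Prop :=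
  ∀ W ∈ 𝓝 z, ∃ m : ℕ, 1 ≤ m ∧ ∃ y ∈ W, y ∈ K ∧ ∃ t : ℝ, ψ t (F^[m] y) ∈ W

section

variable {n : ℕ} {N : Type u} [TopologicalSpace N] [ChartedSpace (V n) N]
  {r : ℕ∞} {F : DiffM n N r} {ψ : ℝ → N → N} {a : N → ℂ} {K : Set N} {g : CircleDeg1Lift}
  (h : Over n N r F ψ a K g) (hper : ∀ y ∈ K, ψ 1 y = y)

include h hper

theorem Over.perZ {y : N} (hy : y ∈ K) (k : ℤ) : ∀ t, ψ (t + k) y = ψ t y := by
  have h1 : ∀ l : ℕ, ψ l y = y := by
    intro l
    induction l with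
    | zero => rw [Nat.cast_zero, h.flow.zero]
    | succ l ih => rw [Nat.cast_succ, h.flow.add, hper y hy, ih]
  have h2 : ψ k y = y := by
    obtain ⟨l, rfl | rfl⟩ := Int.eq_nat_or_neg k
    · rw [Int.cast_natCast]
      exact h1 l
    · have h3 : ψ (((-(l : ℤ) : ℤ) : ℝ) + (l : ℝ)) y = y := by
        push_cast
        rw [neg_add_cancel, h.flow.zero]
      rw [h.flow.add, h1 l] at h3
      exact h3
  intro t
  rw [h.flow.add, h2]

theorem Over.large [T2Space N] {z : N} (hz : z ∈ K) (hnw : OrbNW F ψ K z) :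
    ∀ W ∈ 𝓝 z, ∀ M : ℕ, ∃ m : ℕ, M ≤ m ∧ ∃ y ∈ W, y ∈ K ∧ ∃ t : ℝ, ψ t (F^[m] y) ∈ W := by
  by_contra hcon
  push Not at hcon
  obtain ⟨W₁, hW₁, M₁, hM₁⟩ := hcon
  have hcψ : Continuous (fun q : ℝ × N => ψ q.1 q.2) := h.flow.smooth.continuous
  have claim : ∀ m : ℕ, 1 ≤ m → ∃ W ∈ 𝓝 z, ∀ y ∈ W, y ∈ K → ∀ t, ψ t (F^[m] y) ∉ W := by
    intro m hm
    obtain ⟨θ, hθ⟩ := ex_lift (h.norm z hz)
    have hne : ∀ t, ψ t (F^[m] z) ≠ z := by
      intro t ht
      have hl : ∀ l : ℕ, ∃ u, ψ u (F^[m * l] z) = z := by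
        intro l
        induction l with
        | zero => exact ⟨0, h.flow.zero _⟩
        | succ l ih =>
          obtain ⟨u, hu⟩ := ih
          have e1 : F^[m * l] z = ψ (-u) z := by
            have := congrArg (ψ (-u)) hu
            rwa [← h.flow.add, neg_add_cancel, h.flow.zero] at this
          obtain ⟨i1, i2, i3⟩ := h.it m z hz θ hθ
          have e2 : F^[m * (l + 1)] z = ψ (g^[m] (θ + -u) - g^[m] θ) (F^[m] z) := by
            have e3 : m * (l + 1) = m + m * l := by ring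
            rw [e3, Function.iterate_add_apply, e1, i3]
          refine ⟨t - (g^[m] (θ + -u) - g^[m] θ), ?_⟩
          rw [e2, ← h.flow.add, sub_add_cancel, ht]
      obtain ⟨u, hu⟩ := hl M₁
      refine hM₁ (m * M₁) (Nat.le_mul_of_pos_left _ hm) z (mem_of_mem_nhds hW₁) hz u ?_
      rw [hu]
      exact mem_of_mem_nhds hW₁
    have hC : IsCompact ((fun t => ψ t (F^[m] z)) '' Icc (0 : ℝ) 1) :=
      isCompact_Icc.image (hcψ.comp (continuous_id.prodMk continuous_const))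
    have hdis : Disjoint ({z} : Set N) ((fun t => ψ t (F^[m] z)) '' Icc (0 : ℝ) 1) := by
      rw [Set.disjoint_singleton_left]
      rintro ⟨t, _, ht⟩
      exact hne t ht
    obtain ⟨B, O, hB, hO, hzB, hCO, hBO⟩ :=
      SeparatedNhds.of_isCompact_isCompact isCompact_singleton hC hdis
    have hopen : IsOpen {q : ℝ × N | ψ q.1 (F^[m] q.2) ∈ O} :=
      hO.preimage (hcψ.comp (continuous_fst.prodMk ((F.continuous.iterate m).comp continuous_snd)))
    obtain ⟨u, v, _, hv, hu2, hv2, huv⟩ := generalized_tube_lemma (isCompact_Icc (a := (0 : ℝ))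
      (b := 1)) (isCompact_singleton (x := z)) hopen (by
        rintro ⟨t, y⟩ ⟨ht, hy⟩
        have hy' : y = z := hy
        subst hy'
        exact hCO ⟨t, ht, rfl⟩)
    refine ⟨v ∩ B, inter_mem (hv.mem_nhds (hv2 rfl)) (hB.mem_nhds (hzB rfl)), ?_⟩
    intro y hy hyK t ht
    obtain ⟨s, hs⟩ := ex_lift (h.norm y hyK)
    have h1 : ψ t (F^[m] y) = ψ (Int.fract t) (F^[m] y) := by
      have := h.perZ hper (h.it m y hyK s hs).1 ⌊t⌋ (Int.fract t)
      rwa [Int.fract_add_floor] at this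
    rw [h1] at ht
    have h2 : ψ (Int.fract t) (F^[m] y) ∈ O :=
      huv (show ((Int.fract t, y) : ℝ × N) ∈ u ×ˢ v from
        ⟨hu2 ⟨Int.fract_nonneg t, (Int.fract_lt_one t).le⟩, hy.1⟩)
    exact Set.disjoint_left.1 hBO ht.2 h2
  have all : ∀ M : ℕ, ∃ W ∈ 𝓝 z, ∀ m, 1 ≤ m → m < M → ∀ y ∈ W, y ∈ K → ∀ t, ψ t (F^[m] y) ∉ W := by
    intro M
    induction M with
    | zero => exact ⟨univ, univ_mem, fun m _ hm => by omega⟩
    | succ M ih =>
      obtain ⟨W, hW, hW2⟩ := ih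
      rcases Nat.lt_or_ge M 1 with h0 | h0
      · exact ⟨W, hW, fun m h1 h2 => by omega⟩
      · obtain ⟨W', hW', hW2'⟩ := claim M h0
        refine ⟨W ∩ W', inter_mem hW hW', fun m h1 h2 y hy hyK t ht => ?_⟩
        rcases Nat.lt_or_ge m M with h3 | h3
        · exact hW2 m h1 h3 y hy.1 hyK t ht.1
        · have h4 : m = M := by omega
          subst h4
          exact hW2' y hy.2 hyK t ht.2
  obtain ⟨W₂, hW₂, hW₂'⟩ := all M₁
  obtain ⟨m, hm, y, hy, hyK, t, ht⟩ := hnw (W₁ ∩ W₂) (inter_mem hW₁ hW₂)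
  rcases Nat.lt_or_ge m M₁ with h3 | h3
  · exact hW₂' m hm h3 y hy.2 hyK t ht.2
  · exact hM₁ m h3 y hy.1 hyK t ht.1

theorem Over.rets [T2Space N] {z : N} (hz : z ∈ K) {θ : ℝ} (hθ : a z = ex θ)
    (hnw : OrbNW F ψ K z) :
    ∀ W ∈ 𝓝 z, ∀ M : ℕ, ∃ m : ℕ, M ≤ m ∧ ∀ P : ℤ, Ret F ψ a K g z θ W m P := by
  intro W hW M
  have hcψ : Continuous (fun q : ℝ × N => ψ q.1 q.2) := h.flow.smooth.continuous
  have hac : Continuous a := h.smooth.continuous
  obtain ⟨τ, hτ⟩ : ∃ τ : N → ℝ, ∀ y, τ y = Complex.arg (a z * conj (a y)) / (2 * Real.pi) :=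
    ⟨_, fun y => rfl⟩
  have hzz := Pool.Agent.W54.SC.conj_mul_self _ (h.norm z hz)
  have hτz : τ z = 0 := by
    rw [hτ, hzz, Complex.arg_one, zero_div]
  have hτc : ContinuousAt τ z := by
    have e : τ = fun y => Complex.arg (a z * conj (a y)) / (2 * Real.pi) := funext hτ
    rw [e]
    refine ContinuousAt.div_const ?_ _
    have h1 : ContinuousAt Complex.arg (a z * conj (a z)) := by
      rw [hzz]
      exact Complex.continuousAt_arg Complex.one_mem_slitPlane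
    have h2 : ContinuousAt (fun y => a z * conj (a y)) z :=
      (continuous_const.mul (Complex.continuous_conj.comp hac)).continuousAt
    exact ContinuousAt.comp (f := fun y => a z * conj (a y)) (g := Complex.arg) h1 h2
  have hπ : ContinuousAt (fun y => ψ (τ y) y) z :=
    ContinuousAt.comp (f := fun y => (τ y, y)) (g := fun q : ℝ × N => ψ q.1 q.2)
      hcψ.continuousAt (hτc.prodMk continuousAt_id)
  have hπW : {y | ψ (τ y) y ∈ W} ∈ 𝓝 z := by
    apply hπ.preimage_mem_nhds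
    show W ∈ 𝓝 (ψ (τ z) z)
    rw [hτz, h.flow.zero]
    exact hW
  have hπa : ∀ y ∈ K, a (ψ (τ y) y) = a z := by
    intro y hy
    have h1 : ex (τ y) = a z * conj (a y) := by
      rw [hτ]
      exact (exists_ex (by rw [norm_mul, RCLike.norm_conj, h.norm z hz, h.norm y hy, mul_one])).symm
    rw [h.eigψ y hy, h1, mul_assoc, mul_comm (conj (a y)),
      Pool.Agent.W54.SC.conj_mul_self _ (h.norm y hy), mul_one]
  obtain ⟨m, hm, y, hy, hyK, t, ht⟩ := h.large hper hz hnw _ hπW M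
  refine ⟨m, hm, fun P => ?_⟩
  obtain ⟨s, hs⟩ := ex_lift (h.norm y hyK)
  obtain ⟨i1, i2, i3⟩ := h.it m y hyK s hs
  have hy'K : ψ (τ y) y ∈ K := h.invψ y hyK _
  have hy'a : a (ψ (τ y) y) = ex θ := by rw [hπa y hyK, hθ]
  obtain ⟨j1, j2, j3⟩ := h.it m (ψ (τ y) y) hy'K θ hy'a
  have hwK : ψ t (F^[m] y) ∈ K := h.invψ _ i1 _
  have hwa := hπa _ hwK
  refine ⟨ψ (τ y) y, hy, hy'K, hπa y hyK, ?_⟩
  obtain ⟨σ, hσ⟩ : ∃ σ, σ = g^[m] (s + τ y) - g^[m] s := ⟨_, rfl⟩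
  have e1 : F^[m] y = ψ (-σ) (F^[m] (ψ (τ y) y)) := by
    rw [i3, ← hσ, ← h.flow.add, neg_add_cancel, h.flow.zero]
  obtain ⟨w, hw⟩ : ∃ w, w = ψ t (F^[m] y) := ⟨_, rfl⟩
  have e2' : w = ψ (t - σ) (F^[m] (ψ (τ y) y)) := by
    rw [hw, e1, ← h.flow.add, sub_eq_add_neg]
  have e2 : ψ (τ w) w = ψ (τ w + t - σ) (F^[m] (ψ (τ y) y)) := by
    rw [add_sub_assoc, h.flow.add, ← e2']
  rw [← hw] at hwa
  have hwW : ψ (τ w) w ∈ W := by
    rw [hw]
    exact ht
  rw [e2] at hwW hwa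
  rw [h.eigψ _ j1, j2, ← ex_add, hθ] at hwa
  obtain ⟨l, hl⟩ := ex_eq_ex hwa
  have e3 : τ w + t - σ = (θ + P - g^[m] θ) + ((l - P : ℤ) : ℝ) := by
    push_cast
    linarith
  rw [e3, h.perZ hper j1] at hwW
  exact hwW

end

/-! ### the theorems -/

variable {n : ℕ} {N : Type u} [TopologicalSpace N] [ChartedSpace (V n) N] [IsManifold (𝓡 n) ∞ N]
  {ψ : ℝ → N → N} {a : N → ℂ} {K : Set N}

theorem thmA [T2Space N] [CompactSpace N] (r : ℕ∞) (hr : 1 ≤ r) {F : DiffM n N r}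
    {g : CircleDeg1Lift} (h : Over n N r F ψ a K g) (hper : ∀ y ∈ K, ψ 1 y = y)
    {z : N} (hz : z ∈ K) {θ : ℝ} (hθ : a z = ex θ) (hnw : OrbNW F ψ K z) {q : ℕ} {p : ℤ}
    (hq : 1 ≤ q) (H1 : ∀ x, x + p ≤ g^[q] x) (H2 : ∃ y, g^[q] y = y + p)
    (H3 : θ + p < g^[q] θ) : Closable n N r F z := by
  refine core r hr h z hθ hq H1 H2 H3 q fun W hW M => ?_
  obtain ⟨m, hm, hP⟩ := h.rets hper hz hθ hnw W hW M
  have h1 : m * p < (m * p / q + 1) * q := Int.lt_ediv_add_one_mul_self _ (by omega)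
  have h2 : m * p / q * q ≤ m * p := Int.ediv_mul_le _ (by omega)
  exact ⟨m, m * p / q + 1, hm, by linarith, by linarith, hP _⟩

theorem orbNW_along {r : ℕ∞} {F F' : DiffM n N r} {g : CircleDeg1Lift}
    (h : Over n N r F ψ a K g) {c : N → ℝ} (hF' : ∀ y, F' y = ψ (c y) (F y)) {z : N}
    (hnw : OrbNW F ψ K z) : OrbNW F' ψ K z := by
  intro W hW
  obtain ⟨m, hm, y, hy, hyK, t, ht⟩ := hnw W hW
  obtain ⟨u, hu⟩ := h.along hF' m hyK
  refine ⟨m, hm, y, hy, hyK, t - u, ?_⟩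
  rw [hu, ← h.flow.add, sub_add_cancel]
  exact ht

theorem thmB [T2Space N] [CompactSpace N] (r : ℕ∞) (hr : 1 ≤ r) {F : DiffM n N r}
    {g : CircleDeg1Lift} (h : Over n N r F ψ a K g) (hper : ∀ y ∈ K, ψ 1 y = y)
    {z : N} (hz : z ∈ K) {θ : ℝ} (hθ : a z = ex θ) (hnw : OrbNW F ψ K z) {q : ℕ} {p : ℤ}
    (hq : 1 ≤ q) (H1 : ∀ x, x + p ≤ g^[q] x) {y₀ : ℝ} (hy₀ : g^[q] y₀ = y₀ + p)
    (hy₀' : ∀ (i : ℕ) (k : ℤ), y₀ ≠ g^[i] θ + k) : Closable n N r F z := by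
  intro U hU hFU
  -- the bump
  obtain ⟨β, hβ⟩ : ∃ β : ℝ → ℝ, ∀ s, β s = ∏ j ∈ Finset.range q, (1 - (ex (s - g^[j] y₀)).re) :=
    ⟨_, fun s => rfl⟩
  obtain ⟨B, hB⟩ : ∃ B : N → ℝ, B = fun y => ∏ j ∈ Finset.range q,
      (1 - (a y * conj (ex (g^[j] y₀))).re) := ⟨_, rfl⟩
  have hBs : ContMDiff (𝓡 n) 𝓘(ℝ, ℝ) ∞ B := by
    have h1 : ContDiff ℝ ∞ (fun w : ℂ => ∏ j ∈ Finset.range q,
        (1 - (w * conj (ex (g^[j] y₀))).re)) := by
      apply contDiff_prod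
      intro j _
      exact contDiff_const.sub (Complex.reCLM.contDiff.comp (contDiff_id.mul contDiff_const))
    rw [hB]
    exact h1.contMDiff.comp h.smooth
  have hBβ : ∀ y s, a y = ex s → B y = β s := by
    intro y s hs
    rw [hB, hβ]
    apply Finset.prod_congr rfl
    intro j _
    rw [hs, ← ex_neg, ← ex_add, ← sub_eq_add_neg]
  have hfac : ∀ x : ℝ, 0 ≤ 1 - (ex x).re := by
    intro x
    have h1 := Complex.re_le_norm (ex x)
    rw [norm_ex] at h1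
    linarith
  have hβ0 : ∀ x, 0 ≤ β x := fun x => by
    rw [hβ]
    exact Finset.prod_nonneg fun j _ => hfac _
  have hβ1 : ∀ x, β (x + 1) = β x := by
    intro x
    rw [hβ, hβ]
    apply Finset.prod_congr rfl
    intro j _
    have e : x + 1 - g^[j] y₀ = x - g^[j] y₀ + (1 : ℤ) := by push_cast; ring
    rw [e, ex_add_int]
  have hβz : ∀ j < q, β (g^[j] y₀) = 0 := by
    intro j hj
    rw [hβ]
    apply Finset.prod_eq_zero (Finset.mem_range.2 hj)
    rw [sub_self, ex_zero, Complex.one_re, sub_self]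
  have hβz' : ∀ x, β x = 0 → ∃ j < q, ∃ k : ℤ, x = g^[j] y₀ + k := by
    intro x hx
    rw [hβ, Finset.prod_eq_zero_iff] at hx
    obtain ⟨j, hj, hj2⟩ := hx
    refine ⟨j, Finset.mem_range.1 hj, ?_⟩
    have h1 : (ex (x - g^[j] y₀)).re = 1 := by linarith
    have h2 : ex (x - g^[j] y₀) = 1 := by
      have h3 : Complex.normSq (ex (x - g^[j] y₀)) = 1 := by
        rw [Complex.normSq_eq_norm_sq, norm_ex, one_pow]
      rw [Complex.normSq_apply, h1] at h3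
      have h4 : (ex (x - g^[j] y₀)).im = 0 := by nlinarith
      exact Complex.ext h1 h4
    obtain ⟨k, hk⟩ := ex_eq_one h2
    exact ⟨k, by linarith⟩
  obtain ⟨H, κ1, hκ1, hH0, hfam, hH⟩ := fam1 r h.flow B hBs F
  obtain ⟨κ2, hκ2, hnear⟩ := near r hr H hfam z U hU (by rw [hH0]; exact hFU)
  obtain ⟨ε, hε0, hε1, hε2⟩ : ∃ ε : ℝ, 0 < ε ∧ ε < κ1 ∧ ε < κ2 :=
    ⟨min κ1 κ2 / 2, by positivity, by
      have := min_le_left κ1 κ2
      have h3 : 0 < min κ1 κ2 := lt_min hκ1 hκ2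
      linarith, by
      have := min_le_right κ1 κ2
      have h3 : 0 < min κ1 κ2 := lt_min hκ1 hκ2
      linarith⟩
  obtain ⟨hHε, hlip⟩ := hH ε (by rw [abs_of_pos hε0]; exact hε1)
  have hFU' : H ε ∈ U := hnear ε (by rw [abs_of_pos hε0]; exact hε2)
  have hl1 : ∀ x, ε * β (x + 1) = ε * β x := fun x => by rw [hβ1]
  have hl2 : ∀ x y, |ε * β x - ε * β y| ≤ |x - y| / 2 := by
    intro x y
    have h1 := hlip z (x - θ) (y - θ)
    have h2 : ∀ u, B (ψ (u - θ) z) = β u := by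
      intro u
      apply hBβ
      rw [h.eigψ z hz, hθ, ← ex_add, sub_add_cancel]
    rw [h2, h2, sub_sub_sub_cancel_right] at h1
    exact h1
  have hβc : Continuous (fun x => ε * β x) := by
    have h3 : LipschitzWith (1 / 2) (fun x => ε * β x) := by
      apply LipschitzWith.of_dist_le_mul
      intro x y
      have h4 : ((1 / 2 : ℝ≥0) : ℝ) = 1 / 2 := by norm_num
      rw [h4, Real.dist_eq, Real.dist_eq]
      have := hl2 x y
      linarith
    exact h3.continuous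
  obtain ⟨c1, c2, c3⟩ := bp_touch (g := g) (h1 := hl1) (h2 := hl2) h.mono
    (fun x => mul_nonneg hε0.le (hβ0 x)) hq (θ := θ) H1 hy₀ hy₀'
    (fun j hj => by simp only [hβz j hj, mul_zero])
    (fun x hx => hβz' x (by
      rcases mul_eq_zero.1 hx with h0 | h0
      · exact absurd h0 hε0.ne'
      · exact h0))
  have hov : Over n N r (H ε) ψ a K (bp g (fun x => ε * β x) hl1 hl2) :=
    h.push (b := fun y => ε * B y) hHε (β := fun x => ε * β x)
      (fun y _ s hs => by show ε * B y = ε * β s; rw [hBβ y s hs])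
      (bp_cont h.cont hβc) (bp_strictMono h.mono) (fun x => rfl)
  exact thmA r hr hov hper hz hθ (orbNW_along h (c := fun y => ε * B (F y)) hHε hnw) hq c1
    ⟨y₀, c2⟩ c3 U hU hFU'

theorem thmC [T2Space N] [CompactSpace N] (r : ℕ∞) (hr : 1 ≤ r) {F : DiffM n N r}
    {g : CircleDeg1Lift} (h : Over n N r F ψ a K g) (hper : ∀ y ∈ K, ψ 1 y = y)
    {z : N} (hz : z ∈ K) {θ : ℝ} (hθ : a z = ex θ) (hnw : OrbNW F ψ K z) {q : ℕ} {p : ℤ}
    (hq : 1 ≤ q) (H1 : ∀ x, g^[q] x ≤ x + p) {y₀ : ℝ} (hy₀ : g^[q] y₀ = y₀ + p)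
    (hy₀' : ∀ (i : ℕ) (k : ℤ), y₀ ≠ g^[i] θ + k) : Closable n N r F z := by
  have h' := h.refl
  refine thmB r hr (θ := -θ) (p := -p) (y₀ := -y₀) h' ?_ hz ?_ ?_ hq ?_ ?_ ?_
  · intro y hy
    have h1 := h.perZ hper hy (-1) 0
    rw [h.flow.zero, zero_add] at h1
    push_cast at h1
    exact h1
  · show conj (a z) = ex (-θ)
    rw [hθ, ex_neg]
  · intro W hW
    obtain ⟨m, hm, y, hy, hyK, t, ht⟩ := hnw W hW
    refine ⟨m, hm, y, hy, hyK, -t, ?_⟩
    show ψ (- -t) _ ∈ W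
    rw [neg_neg]
    exact ht
  · intro x
    have := H1 (-x)
    rw [rf_it]
    push_cast
    linarith
  · rw [rf_it, neg_neg, hy₀]
    push_cast
    ring
  · intro i k hik
    apply hy₀' i (-k)
    rw [rf_it, neg_neg] at hik
    push_cast
    linarith

theorem thmD [T2Space N] [CompactSpace N] (r : ℕ∞) (hr : 1 ≤ r) {F : DiffM n N r}
    {g : CircleDeg1Lift} (h : Over n N r F ψ a K g) (hper : ∀ y ∈ K, ψ 1 y = y)
    (hu : Unlocked g) {z : N} (hz : z ∈ K) (hnw : OrbNW F ψ K z) : Closable n N r F z := by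
  intro U hU hFU
  obtain ⟨θ, hθ⟩ := ex_lift (h.norm z hz)
  have hb : ContMDiff (𝓡 n) 𝓘(ℝ, ℝ) ∞ (fun _ : N => (1 : ℝ)) := contMDiff_const
  obtain ⟨H, κ1, hκ1, hH0, hfam, hH⟩ := fam1 r h.flow (fun _ => 1) hb F
  obtain ⟨κ2, hκ2, hnear⟩ := near r hr H hfam z U hU (by rw [hH0]; exact hFU)
  obtain ⟨t, ht, q, p, hq, y₀, hy₀, hy₀', hor⟩ := hu.touch h.cont h.mono (lt_min hκ1 hκ2) θ
  obtain ⟨hHt, _⟩ := hH t (ht.trans_le (min_le_left _ _))
  have hFU' : H t ∈ U := hnear t (ht.trans_le (min_le_right _ _))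
  have hov : Over n N r (H t) ψ a K (sh g t) :=
    h.push (b := fun _ => t * 1) hHt (β := fun _ => t) (fun y _ s _ => mul_one t)
      (sh_cont h.cont t) (sh_strictMono h.mono t) (fun x => rfl)
  have hnw' := orbNW_along h (c := fun _ => t * 1) hHt hnw
  rcases hor with hor | hor
  · exact thmB r hr hov hper hz hθ hnw' hq hor hy₀ hy₀' U hU hFU'
  · exact thmC r hr hov hper hz hθ hnw' hq hor hy₀ hy₀' U hU hFU'

end Pool.Agent.Y828.CM
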