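import Pool.Agent.Y828.CM.Drift

/-!
# Circle maps which are not mode-locked
-/

set_option autoImplicit false

open Filter Set Topology

namespace Pool.Agent.Y828.CM

/-- `g` is not mode-locked: the translation number is not constant on any neighbourhood of `t = 0`
in the family `g + t`. -/
def Unlocked (g : CircleDeg1Lift) : Prop :=
  ∀ ε : ℝ, 0 < ε → ∃ t : ℝ, |t| < ε ∧ (sh g t).translationNumber ≠ g.translationNumber

theorem between (g : CircleDeg1Lift) {s t : ℝ}
    (h : (sh g s).translationNumber < (sh g t).translationNumber) :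
    ∃ (q : ℕ) (p : ℤ), 1 ≤ q ∧ (∀ x, (sh g s)^[q] x < x + p) ∧ ∀ x, x + p < (sh g t)^[q] x := by
  obtain ⟨u, hu1, hu2⟩ := exists_rat_btwn h
  have hq : (0 : ℝ) < u.den := by exact_mod_cast u.den_pos
  have hu : (u : ℝ) * u.den = u.num := by exact_mod_cast Rat.mul_den_eq_num u
  refine ⟨u.den, u.num, u.den_pos, fun x => ?_, fun x => ?_⟩
  · have h1 : ((sh g s) ^ u.den).translationNumber < u.num := by
      rw [CircleDeg1Lift.translationNumber_pow, ← hu, mul_comm]
      exact mul_lt_mul_of_pos_right hu1 hq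
    have := CircleDeg1Lift.map_lt_of_translationNumber_lt_int _ h1 x
    rwa [pow_apply] at this
  · have h1 : (u.num : ℝ) < ((sh g t) ^ u.den).translationNumber := by
      rw [CircleDeg1Lift.translationNumber_pow, ← hu, mul_comm]
      exact mul_lt_mul_of_pos_left hu2 hq
    have := CircleDeg1Lift.lt_map_of_int_lt_translationNumber _ h1 x
    rwa [pow_apply] at this

theorem Unlocked.touch {g : CircleDeg1Lift} (hu : Unlocked g) (hc : Continuous g)
    (hg : StrictMono g) {ε : ℝ} (hε : 0 < ε) (θ : ℝ) :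
    ∃ t : ℝ, |t| < ε ∧ ∃ (q : ℕ) (p : ℤ), 1 ≤ q ∧ ∃ y, (sh g t)^[q] y = y + p ∧
      (∀ (i : ℕ) (k : ℤ), y ≠ (sh g t)^[i] θ + k) ∧
      ((∀ x, x + p ≤ (sh g t)^[q] x) ∨ ∀ x, (sh g t)^[q] x ≤ x + p) := by
  obtain ⟨t, ht, hne⟩ := hu ε hε
  have key : ∀ a b : ℝ, |a| < ε → |b| < ε →
      (sh g a).translationNumber < (sh g b).translationNumber →
      ∃ t : ℝ, |t| < ε ∧ ∃ (q : ℕ) (p : ℤ), 1 ≤ q ∧ ∃ y, (sh g t)^[q] y = y + p ∧
      (∀ (i : ℕ) (k : ℤ), y ≠ (sh g t)^[i] θ + k) ∧
      ((∀ x, x + p ≤ (sh g t)^[q] x) ∨ ∀ x, (sh g t)^[q] x ≤ x + p) := by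
    intro a b ha hb hab
    obtain ⟨q, p, hq, A1, A2⟩ := between g hab
    obtain ⟨s, hs, y, hy⟩ := Pool.Agent.Y828.CM.touch hc hg hq A1 A2 θ
    refine ⟨s, ?_, q, p, hq, y, hy⟩
    rw [abs_lt] at ha hb ⊢
    exact ⟨ha.1.trans_le hs.1, hs.2.trans_lt hb.2⟩
  have h0 : |(0 : ℝ)| < ε := by rw [abs_zero]; exact hε
  rcases lt_or_gt_of_ne hne with h | h
  · exact key t 0 ht h0 (by rw [sh_zero]; exact h)
  · exact key 0 t h0 ht (by rw [sh_zero]; exact h)

/-- Lifts with irrational translation number are not mode-locked. -/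
theorem unlocked_of_irrational {g : CircleDeg1Lift} (h : Irrational g.translationNumber) :
    Unlocked g := by
  intro ε hε
  obtain ⟨s, hs0, hsε⟩ : ∃ s : ℝ, 0 < s ∧ s < ε := ⟨ε / 2, by linarith, by linarith⟩
  obtain ⟨K, hK⟩ := exists_nat_gt (1 / s)
  have hK0 : (0 : ℝ) < K := (by positivity : (0 : ℝ) < 1 / s).trans hK
  have hKs : 1 < K * s := (div_lt_iff₀ hs0).1 hK
  have hKn : 0 < K := by exact_mod_cast hK0
  -- close returns
  obtain ⟨x, hx⟩ : ∃ x : ℕ → ℝ, ∀ i, x i = g^[i] 0 := ⟨_, fun i => rfl⟩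
  have hcell : ∀ i, ⌊Int.fract (x i) * K⌋.toNat < K := by
    intro i
    have h1 : 0 ≤ ⌊Int.fract (x i) * K⌋ :=
      Int.floor_nonneg.2 (mul_nonneg (Int.fract_nonneg _) hK0.le)
    have h2 : ⌊Int.fract (x i) * K⌋ < (K : ℤ) := by
      rw [Int.floor_lt]
      have := mul_lt_mul_of_pos_right (Int.fract_lt_one (x i)) hK0
      push_cast
      linarith
    omega
  obtain ⟨i, j, hij, heq⟩ := Finite.exists_ne_map_eq_of_infinite
    (fun i : ℕ => (⟨⌊Int.fract (x i) * K⌋.toNat, hcell i⟩ : Fin K))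
  wlog hlt : i < j generalizing i j
  · exact this j i hij.symm heq.symm (by omega)
  have hfl : ⌊Int.fract (x i) * K⌋ = ⌊Int.fract (x j) * K⌋ := by
    have h1 : ⌊Int.fract (x i) * K⌋.toNat = ⌊Int.fract (x j) * K⌋.toNat := congrArg Fin.val heq
    have h2 : 0 ≤ ⌊Int.fract (x i) * K⌋ :=
      Int.floor_nonneg.2 (mul_nonneg (Int.fract_nonneg _) hK0.le)
    have h3 : 0 ≤ ⌊Int.fract (x j) * K⌋ :=
      Int.floor_nonneg.2 (mul_nonneg (Int.fract_nonneg _) hK0.le)
    omega
  have hclose : |Int.fract (x j) - Int.fract (x i)| < s := by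
    have h1 : |Int.fract (x j) * K - Int.fract (x i) * K| < 1 :=
      Int.abs_sub_lt_one_of_floor_eq_floor hfl.symm
    rw [← sub_mul, abs_mul, abs_of_pos hK0] at h1
    by_contra hcon
    push Not at hcon
    have := mul_le_mul_of_nonneg_right hcon hK0.le
    linarith
  obtain ⟨n, rfl⟩ := Nat.exists_eq_add_of_lt hlt
  obtain ⟨q, hqd⟩ : ∃ q, q = n + 1 := ⟨_, rfl⟩
  have hq : 1 ≤ q := by omega
  obtain ⟨p, hp⟩ : ∃ p : ℤ, p = ⌊x (i + n + 1)⌋ - ⌊x i⌋ := ⟨_, rfl⟩
  have hxj : x (i + n + 1) = g^[q] (x i) := by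
    have e : i + n + 1 = q + i := by omega
    rw [e, hx, hx, Function.iterate_add_apply]
  have hd : |g^[q] (x i) - (x i + p)| < s := by
    have e : g^[q] (x i) - (x i + p) = Int.fract (x (i + n + 1)) - Int.fract (x i) := by
      rw [← hxj, hp, Int.fract, Int.fract]
      push_cast
      ring
    rw [e]
    exact hclose
  rw [abs_lt] at hd
  have hrat : (q : ℝ) * g.translationNumber ≠ p := by
    intro h1
    have hq0 : (q : ℝ) ≠ 0 := by exact_mod_cast (by omega : q ≠ 0)
    apply h
    refine ⟨(p : ℚ) / q, ?_⟩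
    push_cast
    rw [div_eq_iff hq0, ← h1]
    ring
  have hτ : ∀ t, ((sh g t) ^ q).translationNumber = q * (sh g t).translationNumber := fun t =>
    CircleDeg1Lift.translationNumber_pow _ q
  rcases le_total (g^[q] (x i)) (x i + p) with h1 | h1
  · refine ⟨s, by rw [abs_of_pos hs0]; exact hsε, fun hcon => hrat ?_⟩
    have h2 : (g ^ q).translationNumber ≤ p :=
      CircleDeg1Lift.translationNumber_le_of_le_add_int _ (x := x i) (by rw [pow_apply]; exact h1)
    rw [CircleDeg1Lift.translationNumber_pow] at h2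
    have h3 : (p : ℝ) ≤ ((sh g s) ^ q).translationNumber := by
      apply CircleDeg1Lift.le_translationNumber_of_add_int_le _ (x := x i)
      rw [pow_apply]
      have := sh_it_lt g hs0 q hq (x i)
      rw [sh_zero] at this
      linarith
    rw [hτ, hcon] at h3
    linarith
  · refine ⟨-s, by rw [abs_neg, abs_of_pos hs0]; exact hsε, fun hcon => hrat ?_⟩
    have h2 : (p : ℝ) ≤ (g ^ q).translationNumber :=
      CircleDeg1Lift.le_translationNumber_of_add_int_le _ (x := x i) (by rw [pow_apply]; exact h1)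
    rw [CircleDeg1Lift.translationNumber_pow] at h2
    have h3 : ((sh g (-s)) ^ q).translationNumber ≤ p := by
      apply CircleDeg1Lift.translationNumber_le_of_le_add_int _ (x := x i)
      rw [pow_apply]
      have := sh_it_lt g (show -s < 0 by linarith) q hq (x i)
      rw [sh_zero] at this
      linarith
    rw [hτ, hcon] at h3
    linarith

/-! ### reflection -/

/-- The lift `x ↦ - g (-x)`. -/
def rf (g : CircleDeg1Lift) : CircleDeg1Lift where
  toFun x := -g (-x)
  monotone' x y h := by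
    have := g.mono (neg_le_neg h)
    simpa using this
  map_add_one' x := by
    show -g (-(x + 1)) = -g (-x) + 1
    have e : -(x + 1) = -x - (1 : ℤ) := by push_cast; ring
    rw [e, CircleDeg1Lift.map_sub_int]
    push_cast
    ring

@[simp] theorem rf_apply (g : CircleDeg1Lift) (x : ℝ) : rf g x = -g (-x) := rfl

theorem rf_it (g : CircleDeg1Lift) (n : ℕ) (x : ℝ) : (rf g)^[n] x = -g^[n] (-x) := by
  induction n with
  | zero => simp
  | succ n ih => rw [Function.iterate_succ_apply', Function.iterate_succ_apply', ih, rf_apply, neg_neg]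

theorem rf_cont {g : CircleDeg1Lift} (hc : Continuous g) : Continuous (rf g) :=
  (hc.comp continuous_neg).neg

theorem rf_strictMono {g : CircleDeg1Lift} (hg : StrictMono g) : StrictMono (rf g) := fun x y h => by
  have := hg (neg_lt_neg h)
  simp only [rf_apply]
  linarith

/-! ### bumps -/

/-- The lift `x ↦ g x + β (g x)`. -/
def bp (g : CircleDeg1Lift) (β : ℝ → ℝ) (h1 : ∀ x, β (x + 1) = β x)
    (h2 : ∀ x y, |β x - β y| ≤ |x - y| / 2) : CircleDeg1Lift where
  toFun x := g x + β (g x)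
  monotone' x y h := by
    have h3 := g.mono h
    have h4 := h2 (g x) (g y)
    rw [abs_sub_comm (g x), abs_of_nonneg (sub_nonneg.2 h3)] at h4
    have h5 := le_abs_self (β (g x) - β (g y))
    show g x + β (g x) ≤ g y + β (g y)
    linarith
  map_add_one' x := by
    show g (x + 1) + β (g (x + 1)) = g x + β (g x) + 1
    rw [g.map_add_one, h1]
    ring

section

variable {g : CircleDeg1Lift} {β : ℝ → ℝ} {h1 : ∀ x, β (x + 1) = β x}
  {h2 : ∀ x y, |β x - β y| ≤ |x - y| / 2}

@[simp] theorem bp_apply (x : ℝ) : bp g β h1 h2 x = g x + β (g x) := rfl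

theorem bp_cont (hc : Continuous g) (hβ : Continuous β) : Continuous (bp g β h1 h2) :=
  hc.add (hβ.comp hc)

theorem bp_strictMono (hg : StrictMono g) : StrictMono (bp g β h1 h2) := fun x y h => by
  have h3 := hg h
  have h4 := h2 (g x) (g y)
  rw [abs_sub_comm (g x), abs_of_nonneg (sub_nonneg.2 h3.le)] at h4
  have h5 := le_abs_self (β (g x) - β (g y))
  simp only [bp_apply]
  linarith

theorem bp_ge (hβ : ∀ x, 0 ≤ β x) (n : ℕ) (x : ℝ) : g^[n] x ≤ (bp g β h1 h2)^[n] x := by
  have h3 : g ≤ bp g β h1 h2 := fun x => by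
    show g x ≤ g x + β (g x)
    linarith [hβ (g x)]
  exact CircleDeg1Lift.iterate_mono h3 n x

/-- The bump vanishing exactly on the orbit of a touching point. -/
theorem bp_touch (hg : StrictMono g) (hβ : ∀ x, 0 ≤ β x) {q : ℕ} {p : ℤ} (hq : 1 ≤ q) {θ y : ℝ}
    (H1 : ∀ x, x + p ≤ g^[q] x) (hy : g^[q] y = y + p)
    (hθ : ∀ (i : ℕ) (k : ℤ), y ≠ g^[i] θ + k)
    (hz : ∀ j < q, β (g^[j] y) = 0)
    (hz' : ∀ x, β x = 0 → ∃ j < q, ∃ k : ℤ, x = g^[j] y + k) :
    (∀ x, x + p ≤ (bp g β h1 h2)^[q] x) ∧ (bp g β h1 h2)^[q] y = y + p ∧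
      θ + p < (bp g β h1 h2)^[q] θ := by
  have hper : ∀ (k : ℤ) (x : ℝ), β (x + k) = β x := by
    intro k x
    have hp : Function.Periodic β 1 := h1
    have := hp.int_mul k x
    rwa [mul_one] at this
  refine ⟨fun x => (H1 x).trans (bp_ge hβ q x), ?_, ?_⟩
  · have h3 : ∀ j ≤ q, (bp g β h1 h2)^[j] y = g^[j] y := by
      intro j
      induction j with
      | zero => intro _; rfl
      | succ j ih =>
        intro hj
        rw [Function.iterate_succ_apply', ih (by omega), bp_apply, ← Function.iterate_succ_apply' g]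
        rcases Nat.lt_or_ge (j + 1) q with h | h
        · rw [hz _ h, add_zero]
        · have h4 : g^[j.succ] y = y + p := by
            rw [show j.succ = q by omega]
            exact hy
          have h5 := hz 0 (by omega)
          rw [Function.iterate_zero_apply] at h5
          rw [h4, hper, h5, add_zero]
    rw [h3 q le_rfl, hy]
  · obtain ⟨m, rfl⟩ := Nat.exists_eq_add_of_le' hq
    rw [Function.iterate_succ_apply']
    have h3 := bp_ge (g := g) (h1 := h1) (h2 := h2) hβ m θ
    rcases h3.lt_or_eq with h | h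
    · have h4 := hg h
      have h5 := H1 θ
      rw [Function.iterate_succ_apply'] at h5
      have h6 := hβ (g ((bp g β h1 h2)^[m] θ))
      rw [bp_apply]
      linarith
    · rw [← h, bp_apply, ← Function.iterate_succ_apply' g]
      have h4 := H1 θ
      have h5 : 0 < β (g^[m + 1] θ) := by
        rcases (hβ (g^[m + 1] θ)).lt_or_eq with h6 | h6
        · exact h6
        · exfalso
          obtain ⟨j, hj, k, hk⟩ := hz' _ h6.symm
          obtain ⟨l, hl⟩ := Nat.exists_eq_add_of_lt hj
          apply hθ (l + 1 + (m + 1)) (-(k + p))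
          have h7 : g^[l + 1] (g^[m + 1] θ) = y + p + k := by
            rw [hk, it_add_int, ← Function.iterate_add_apply, ← hy,
              show l + 1 + j = m + 1 by omega]
          rw [Function.iterate_add_apply, h7]
          push_cast
          ring
      linarith

end

end Pool.Agent.Y828.CM
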