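import Pool.Agent.TH290.CL.Main
import Pool.Agent.Y828.CM.Unlocked

/-!
# Diffeomorphisms over circle maps
-/

set_option autoImplicit false
set_option linter.unusedSectionVars false

open scoped Manifold ContDiff Topology NNReal ComplexConjugate
open Filter Set Metric

universe u

namespace Pool.Agent.Y828.CM

open Pool.Agent.H718R2.G Pool.Agent.W564.SC Pool.Agent.TH290.CL

/-- `ψ` is a smooth flow on `N` and `a : N → ℂ` is smooth; `K ⊆ N` is invariant under `F` and `ψ`; on `K` we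
have `|a| = 1`, `a (ψ_t y) = e(t) a(y)` where `e(t) = exp(2πit)`, and `F` acts over the circle
homeomorphism with lift `g`: if `a(y) = e(s)` then `a (F y) = e(g s)` and
`F (ψ_t y) = ψ_(g(s+t)-g(s)) (F y)`. Outside of `K` the diffeomorphism `F` is arbitrary. -/
structure Over (n : ℕ) (N : Type*) [TopologicalSpace N] [ChartedSpace (V n) N] (r : ℕ∞)
    (F : DiffM n N r) (ψ : ℝ → N → N) (a : N → ℂ) (K : Set N) (g : CircleDeg1Lift) : Prop where
  flow : IsFlow n N ψ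
  smooth : ContMDiff (𝓡 n) 𝓘(ℝ, ℂ) ∞ a
  cont : Continuous g
  mono : StrictMono g
  inv : ∀ y ∈ K, F y ∈ K
  invψ : ∀ y ∈ K, ∀ t, ψ t y ∈ K
  norm : ∀ y ∈ K, ‖a y‖ = 1
  eigψ : ∀ y ∈ K, ∀ t, a (ψ t y) = ex t * a y
  eigF : ∀ y ∈ K, ∀ s, a y = ex s → a (F y) = ex (g s)
  fib : ∀ y ∈ K, ∀ s t, a y = ex s → F (ψ t y) = ψ (g (s + t) - g s) (F y)

theorem exists_ex {w : ℂ} (hw : ‖w‖ = 1) : w = ex (Complex.arg w / (2 * Real.pi)) :=
  (Pool.Agent.W54.SC.exp_arg2 w hw).symm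

theorem ex_lift {w : ℂ} (hw : ‖w‖ = 1) : ∃ s : ℝ, w = ex s := ⟨_, exists_ex hw⟩

section

variable {n : ℕ} {N : Type u} [TopologicalSpace N] [ChartedSpace (V n) N]
  {r : ℕ∞} {F : DiffM n N r} {ψ : ℝ → N → N} {a : N → ℂ} {K : Set N} {g : CircleDeg1Lift}
  (h : Over n N r F ψ a K g)

include h

theorem Over.it (m : ℕ) : ∀ y ∈ K, ∀ s, a y = ex s → F^[m] y ∈ K ∧ a (F^[m] y) = ex (g^[m] s) ∧
    ∀ t, F^[m] (ψ t y) = ψ (g^[m] (s + t) - g^[m] s) (F^[m] y) := by
  induction m with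
  | zero =>
    intro y hy s hs
    refine ⟨hy, hs, fun t => ?_⟩
    show ψ t y = ψ (s + t - s) y
    rw [add_sub_cancel_left]
  | succ m ih =>
    intro y hy s hs
    obtain ⟨i1, i2, i3⟩ := ih y hy s hs
    refine ⟨?_, ?_, fun t => ?_⟩
    · rw [Function.iterate_succ_apply']
      exact h.inv _ i1
    · rw [Function.iterate_succ_apply', Function.iterate_succ_apply']
      exact h.eigF _ i1 _ i2
    · rw [Function.iterate_succ_apply', i3, h.fib _ i1 _ _ i2, Function.iterate_succ_apply',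
        Function.iterate_succ_apply', Function.iterate_succ_apply', add_sub_cancel]

/-- perturbed iterates -/
theorem Over.itt {G : N → N} {t : ℝ} (hG : ∀ y, G y = ψ t (F y)) (m : ℕ) {y : N} (hy : y ∈ K)
    {s : ℝ} (hs : a y = ex s) : G^[m] y = ψ ((sh g t)^[m] s - g^[m] s) (F^[m] y) := by
  induction m with
  | zero =>
    show y = ψ (s - s) y
    rw [sub_self, h.flow.zero]
  | succ m ih =>
    obtain ⟨i1, i2, i3⟩ := h.it m y hy s hs
    rw [Function.iterate_succ_apply', ih, hG, h.fib _ i1 _ _ i2, ← h.flow.add,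
      Function.iterate_succ_apply', Function.iterate_succ_apply', Function.iterate_succ_apply',
      add_sub_cancel, sh_apply]
    congr 1
    ring

/-- If `F' y` is in the flow line of `F y`, then `F'^m y` is in the flow line of `F^m y`. -/
theorem Over.along {F' : N → N} {c : N → ℝ} (hF' : ∀ y, F' y = ψ (c y) (F y)) (m : ℕ) {y : N}
    (hy : y ∈ K) : ∃ u, F'^[m] y = ψ u (F^[m] y) := by
  induction m with
  | zero => exact ⟨0, (h.flow.zero y).symm⟩
  | succ m ih =>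
    obtain ⟨u, hu⟩ := ih
    obtain ⟨s, hs⟩ := ex_lift (h.norm y hy)
    obtain ⟨i1, i2, i3⟩ := h.it m y hy s hs
    refine ⟨c (ψ u (F^[m] y)) + (g (g^[m] s + u) - g (g^[m] s)), ?_⟩
    rw [Function.iterate_succ_apply', hu, hF', h.fib _ i1 _ _ i2, ← h.flow.add,
      Function.iterate_succ_apply']

theorem Over.push {F' : DiffM n N r} {b : N → ℝ} (hF' : ∀ y, F' y = ψ (b (F y)) (F y))
    {β : ℝ → ℝ} (hb : ∀ y ∈ K, ∀ s, a y = ex s → b y = β s) {g' : CircleDeg1Lift}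
    (hc : Continuous g') (hm : StrictMono g') (hg' : ∀ x, g' x = g x + β (g x)) :
    Over n N r F' ψ a K g' where
  flow := h.flow
  smooth := h.smooth
  cont := hc
  mono := hm
  inv y hy := by
    rw [hF']
    exact h.invψ _ (h.inv y hy) _
  invψ := h.invψ
  norm := h.norm
  eigψ := h.eigψ
  eigF y hy s hs := by
    have h1 := h.eigF y hy s hs
    rw [hF', h.eigψ _ (h.inv y hy), hb _ (h.inv y hy) _ h1, h1, hg', ← ex_add, add_comm]
  fib y hy s t hs := by
    have h1 := h.eigF y hy s hs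
    have h2 : a (ψ t y) = ex (s + t) := by
      rw [h.eigψ y hy, hs, ← ex_add, add_comm]
    have h3 := h.eigF _ (h.invψ y hy t) _ h2
    rw [hF', hF', hb _ (h.inv y hy) _ h1, hb _ (h.inv _ (h.invψ y hy t)) _ h3,
      h.fib y hy s t hs, ← h.flow.add, ← h.flow.add, hg', hg']
    congr 1
    ring

/-- reflection -/
theorem Over.refl : Over n N r F (fun t => ψ (-t)) (fun y => conj (a y)) K (rf g) where
  flow :=
    { smooth := by
        have h1 : ContMDiff (𝓘(ℝ, ℝ).prod (𝓡 n)) (𝓘(ℝ, ℝ).prod (𝓡 n)) ∞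
            (fun q : ℝ × N => (-q.1, q.2)) :=
          (contDiff_neg.contMDiff.comp contMDiff_fst).prodMk contMDiff_snd
        exact h.flow.smooth.comp h1
      zero := fun y => by
        show ψ (-0) y = y
        rw [neg_zero, h.flow.zero]
      add := fun s t y => by
        show ψ (-(s + t)) y = ψ (-s) (ψ (-t) y)
        rw [neg_add, h.flow.add] }
  smooth := by
    have hc : ContDiff ℝ ∞ (fun w : ℂ => conj w) := Complex.conjCLE.contDiff
    exact hc.contMDiff.comp h.smooth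
  cont := rf_cont h.cont
  mono := rf_strictMono h.mono
  inv := h.inv
  invψ y hy t := h.invψ y hy _
  norm y hy := by
    show ‖conj (a y)‖ = 1
    rw [RCLike.norm_conj, h.norm y hy]
  eigψ y hy t := by
    show conj (a (ψ (-t) y)) = _
    rw [h.eigψ y hy, map_mul, ← ex_neg, neg_neg]
  eigF y hy s hs := by
    have h1 : a y = ex (-s) := by
      rw [ex_neg, ← hs, Complex.conj_conj]
    show conj (a (F y)) = _
    rw [h.eigF y hy _ h1, ← ex_neg, rf_apply]
  fib y hy s t hs := by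
    have h1 : a y = ex (-s) := by
      rw [ex_neg, ← hs, Complex.conj_conj]
    show F (ψ (-t) y) = ψ (-(rf g (s + t) - rf g s)) (F y)
    rw [h.fib y hy _ _ h1, rf_apply, rf_apply]
    congr 1
    rw [neg_add]
    ring

end

/-! ### families -/

variable {n : ℕ} {N : Type u} [TopologicalSpace N] [ChartedSpace (V n) N] [IsManifold (𝓡 n) ∞ N]
  {ψ : ℝ → N → N}

theorem fam1 [CompactSpace N] (r : ℕ∞) (hψ : IsFlow n N ψ) (b : N → ℝ)
    (hb : ContMDiff (𝓡 n) 𝓘(ℝ, ℝ) ∞ b) (F : DiffM n N r) :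
    ∃ (H : ℝ → DiffM n N r) (κ : ℝ), 0 < κ ∧ H 0 = F ∧ IsFam n N r H ∧
      ∀ s, |s| < κ → (∀ y, H s y = ψ (s * b (F y)) (F y)) ∧
        ∀ y t t', |s * b (ψ t y) - s * b (ψ t' y)| ≤ |t - t'| / 2 := by
  have hr : (r : WithTop ℕ∞) ≤ ∞ := by exact_mod_cast le_top
  obtain ⟨L, hL⟩ := flow_lip hψ hb
  have hL0 : (0 : ℝ) ≤ L := L.2
  set κ : ℝ := 1 / (2 * (1 + L)) with hκd
  have hκ0 : 0 < κ := by positivity
  have hκ1 : κ * (1 + L) = 1 / 2 := by
    rw [hκd]
    field_simp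
  have hlip0 : ∀ s : ℝ, |s| < κ → ∀ y t t', |s * b (ψ t y) - s * b (ψ t' y)| ≤ |t - t'| / 2 := by
    intro s hs y t t'
    have h1 := (hL y).dist_le_mul t t'
    rw [Real.dist_eq, Real.dist_eq] at h1
    rw [← mul_sub, abs_mul]
    have h2 : |s| * |b (ψ t y) - b (ψ t' y)| ≤ κ * (L * |t - t'|) :=
      mul_le_mul hs.le h1 (abs_nonneg _) hκ0.le
    have h3 : κ * L ≤ 1 / 2 := by nlinarith
    have h4 : κ * (L * |t - t'|) ≤ 1 / 2 * |t - t'| := by
      rw [← mul_assoc]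
      exact mul_le_mul_of_nonneg_right h3 (abs_nonneg _)
    linarith
  have hts : ∀ s : ℝ, ContMDiff (𝓡 n) 𝓘(ℝ, ℝ) ∞ (fun y => s * b y) := fun s => by
    have h1 : ContDiff ℝ ∞ (fun x : ℝ => s * x) := contDiff_const.mul contDiff_id
    exact h1.contMDiff.comp hb
  have key : ∀ s : ℝ, ∃ G : DiffM n N r, (|s| < κ →
      ∀ y, G y = ψ (s * b (F y)) (F y)) ∧ (¬ |s| < κ → G = F) := by
    intro s
    by_cases hs : |s| < κ
    · have hlip : ∀ y, LipschitzWith (1 / 2) (fun t : ℝ => s * b (ψ t y)) := by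
        intro y
        apply LipschitzWith.of_dist_le_mul
        intro t t'
        have h3 : ((1 / 2 : ℝ≥0) : ℝ) = 1 / 2 := by norm_num
        rw [h3, Real.dist_eq, Real.dist_eq]
        have := hlip0 s hs y t t'
        linarith
      obtain ⟨G, hG⟩ := tc hψ (hts s) hlip r
      exact ⟨F.trans G, fun _ y => hG (F y), fun h => absurd hs h⟩
    · exact ⟨F, fun h => absurd h hs, fun _ => rfl⟩
  choose H hH1 hH2 using key
  refine ⟨H, κ, hκ0, ?_, ?_, fun s hs => ⟨hH1 s hs, hlip0 s hs⟩⟩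
  · ext y
    rw [hH1 0 (by rw [abs_zero]; exact hκ0), zero_mul, hψ.zero]
  · intro y
    have hq' : Tendsto (fun z : ℝ × N => |z.1|) (𝓝 ((0 : ℝ), y)) (𝓝 |(0 : ℝ)|) :=
      (continuous_fst.abs.tendsto _)
    have hev : ∀ᶠ z : ℝ × N in 𝓝 ((0 : ℝ), y), |z.1| < κ :=
      hq'.eventually (gt_mem_nhds (by rw [abs_zero]; exact hκ0))
    have e1 : (fun z : ℝ × N => H z.1 z.2) =ᶠ[𝓝 ((0 : ℝ), y)]
        (fun z => ψ (z.1 * b (F z.2)) (F z.2)) := by
      filter_upwards [hev] with z hz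
      exact hH1 z.1 hz z.2
    refine ContMDiffAt.congr_of_eventuallyEq ?_ e1
    have s0 : ContMDiffAt (𝓘(ℝ, ℝ).prod (𝓡 n)) (𝓡 n) r
        (fun z : ℝ × N => F z.2) ((0 : ℝ), y) :=
      (F.contMDiff.contMDiffAt).comp _ contMDiffAt_snd
    have s1 : ContMDiffAt (𝓘(ℝ, ℝ).prod (𝓡 n)) 𝓘(ℝ, ℝ × ℝ) r
        (fun z : ℝ × N => (z.1, b (F z.2))) ((0 : ℝ), y) := by
      refine ContMDiffAt.prodMk_space contMDiffAt_fst ?_
      exact ContMDiffAt.comp (g := b) (f := fun z : ℝ × N => F z.2) _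
        ((hb.of_le hr).contMDiffAt) s0
    have s2 : ContMDiffAt (𝓘(ℝ, ℝ).prod (𝓡 n)) 𝓘(ℝ, ℝ) r
        (fun z : ℝ × N => z.1 * b (F z.2)) ((0 : ℝ), y) := by
      have h2 : ContDiffAt ℝ r (fun z : ℝ × ℝ => z.1 * z.2) ((0 : ℝ), b (F y)) :=
        (contDiff_fst.mul contDiff_snd).contDiffAt
      exact h2.comp_contMDiffAt (f := fun z : ℝ × N => (z.1, b (F z.2))) s1
    have s3 := s2.prodMk s0
    exact ContMDiffAt.comp (g := fun q : ℝ × N => ψ q.1 q.2)
      (f := fun z : ℝ × N => (z.1 * b (F z.2), F z.2)) _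
      ((hψ.smooth.of_le hr).contMDiffAt) s3

/-- Small parameters stay in a given neighbourhood. -/
theorem near [T2Space N] [CompactSpace N] (r : ℕ∞) (hr : 1 ≤ r) (H : ℝ → DiffM n N r)
    (hH : IsFam n N r H) (z : N) (U : Set (DiffM n N r)) (hU : IsOpen[strongTop n N r] U)
    (h0 : H 0 ∈ U) : ∃ κ : ℝ, 0 < κ ∧ ∀ s, |s| < κ → H s ∈ U := by
  obtain ⟨χ, hχ⟩ := Pool.Agent.W699.SC.gc n N z
  obtain ⟨k, _, _, κ, hκ, h⟩ := t_NBHD n N r hr ℝ H hH χ z hχ U hU h0
  refine ⟨κ, hκ, fun s hs => ?_⟩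
  have h1 := h s (fun _ => 0) (Diffeomorph.refl (𝓡 n) N r) (by rw [Real.norm_eq_abs]; exact hs)
    ⟨contDiff_const, fun _ _ => rfl, fun l _ x => by
      have e : iteratedFDeriv ℝ l (fun _ : V n => (0 : V n)) x = 0 := by
        have := iteratedFDeriv_fun_zero (𝕜 := ℝ) (E := V n) (F := V n) (n := l)
        exact congrFun this x
      rw [e, norm_zero]
      exact hκ.le⟩ ⟨fun y hy => ⟨hy, by rw [add_zero]; rfl⟩, fun y _ => rfl⟩
  have e : (H s).trans (Diffeomorph.refl (𝓡 n) N r) = H s := by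
    ext y
    rfl
  rwa [e] at h1

end Pool.Agent.Y828.CM
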